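import Mathlib
import Pool.Agent.H438R2.RZ.P6
import Pool.Agent.H438R2.RZ.P7
import Pool.Agent.TH278.Defs
set_option autoImplicit false

/-! # The maximal function over all directions (kernel form) -/

namespace Pool.Agent.TH484.J612

open MeasureTheory Set Filter Topology
open scoped ENNReal
open Pool.Agent.H438R2.RZ (Bk)
open Pool.Agent.H438R2.RZ.P7aux (T cc ww ll bk_le T_meas U_meas sq_tsum_le)

/-- the maximal function over the boxes of one size with slopes in a finite set -/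
noncomputable def FF (S : Finset ℤ) (γ : ℤ → ℝ) (G : ℝ × ℝ → ℝ≥0∞) (l w : ℝ) (z : ℝ × ℝ) : ℝ≥0∞ :=
  ⨆ a ∈ S, ENNReal.ofReal (1 / (l * w)) * ∫⁻ z' in T (γ a) l w z, G z'

theorem FF_meas (S : Finset ℤ) (γ : ℤ → ℝ) {G : ℝ × ℝ → ℝ≥0∞} (hG : Measurable G) (l w : ℝ) :
    Measurable (FF S γ G l w) := by
  unfold FF
  refine Measurable.biSup (↑S : Set ℤ) (to_countable _) fun a _ => ?_
  refine Measurable.const_mul ?_ _
  have h1 : Measurable (fun q : (ℝ × ℝ) × (ℝ × ℝ) =>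
      {q : (ℝ × ℝ) × (ℝ × ℝ) | q.2 ∈ T (γ a) l w q.1}.indicator (fun q => G q.2) q) :=
    (hG.comp measurable_snd).indicator (U_meas _ _ _)
  have h2 := h1.lintegral_prod_right' (ν := volume)
  have e : (fun z : ℝ × ℝ => ∫⁻ z' in T (γ a) l w z, G z') = fun z => ∫⁻ z',
      {q : (ℝ × ℝ) × (ℝ × ℝ) | q.2 ∈ T (γ a) l w q.1}.indicator (fun q => G q.2) (z, z') := by
    funext z
    rw [← lintegral_indicator (T_meas _ _ _ _)]
    rfl
  rw [e]
  exact h2

theorem sup_le' (S : Finset ℤ) (γ : ℤ → ℝ) (L : ℝ) (hL : 10 ≤ L) {G : ℝ × ℝ → ℝ≥0∞}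
    (hG : Measurable G) (z : ℝ × ℝ) :
    (⨆ a ∈ S, ∫⁻ z', ENNReal.ofReal (Bk L (γ a) (z' - z)) * G z') ≤
      ∑' p : ℕ × ℕ, cc p * FF S γ G (ll L p) (ww L p) z := by
  refine iSup₂_le fun a ha => ?_
  calc ∫⁻ z', ENNReal.ofReal (Bk L (γ a) (z' - z)) * G z'
      ≤ ∫⁻ z', ∑' p : ℕ × ℕ, (T (γ a) (ll L p) (ww L p) z).indicator
        (fun z' => cc p * (ENNReal.ofReal (1 / (ll L p * ww L p)) * G z')) z' := by
        refine lintegral_mono fun z' => ?_
        refine (bk_le L (γ a) hL z z' (G z')).trans (le_of_eq ?_)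
        congr 1
    _ = ∑' p : ℕ × ℕ, ∫⁻ z', (T (γ a) (ll L p) (ww L p) z).indicator
        (fun z' => cc p * (ENNReal.ofReal (1 / (ll L p * ww L p)) * G z')) z' := by
        refine lintegral_tsum fun p => ?_
        exact (((hG.const_mul _).const_mul _).indicator (T_meas _ _ _ _)).aemeasurable
    _ = ∑' p : ℕ × ℕ, cc p * (ENNReal.ofReal (1 / (ll L p * ww L p)) *
        ∫⁻ z' in T (γ a) (ll L p) (ww L p) z, G z') := by
        congr 1
        funext p
        rw [lintegral_indicator (T_meas _ _ _ _), lintegral_const_mul _ (hG.const_mul _),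
          lintegral_const_mul _ hG]
    _ ≤ ∑' p : ℕ × ℕ, cc p * FF S γ G (ll L p) (ww L p) z := by
        refine ENNReal.tsum_le_tsum fun p => ?_
        gcongr
        unfold FF
        exact le_iSup₂ (f := fun (a : ℤ) (_ : a ∈ S) =>
          ENNReal.ofReal (1 / (ll L p * ww L p)) *
            ∫⁻ z' in T (γ a) (ll L p) (ww L p) z, G z') a ha

theorem kak_fin : ∃ C : ℝ, 0 < C ∧ ∀ L : ℝ, 10 ≤ L → ∀ S : Finset ℤ,
    ∀ γ : ℤ → ℝ, (∀ a ∈ S, |γ a| ≤ 3) → ∀ G : ℝ × ℝ → ℝ≥0∞, Measurable G →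
    ∫⁻ z : ℝ × ℝ, (⨆ a ∈ S, ∫⁻ z', ENNReal.ofReal (Bk L (γ a) (z' - z)) * G z') ^ 2 ≤
      ENNReal.ofReal (C * (1 + Real.log L) ^ 2) * ∫⁻ z, G z ^ 2 := by
  obtain ⟨C, hC, hb⟩ := Pool.Agent.H438R2.RZ.kak_box
  set k : ℕ × ℕ → ℝ := fun p => 16 * (1 / 2 : ℝ) ^ p.1 * (3 / 4 : ℝ) ^ p.2 with hk
  have hk0 : ∀ p, 0 ≤ k p := fun p => by rw [hk]; positivity
  have hks : Summable k := by
    have h1 : Summable fun p : ℕ × ℕ => (1 / 2 : ℝ) ^ p.1 * (3 / 4 : ℝ) ^ p.2 :=
      (summable_geometric_of_lt_one (by norm_num) (by norm_num)).mul_of_nonneg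
        (summable_geometric_of_lt_one (by norm_num) (by norm_num))
        (fun n => by positivity) (fun n => by positivity)
    refine (h1.mul_left 16).congr fun p => ?_
    rw [hk]
    ring
  set K : ℝ := ∑' p, k p with hK
  have hK0 : 0 ≤ K := tsum_nonneg hk0
  have hS : ∑' p : ℕ × ℕ, cc p ≤ ENNReal.ofReal K := by
    rw [hK, ENNReal.ofReal_tsum_of_nonneg hk0 hks]
    refine ENNReal.tsum_le_tsum fun p => ?_
    unfold cc
    apply ENNReal.ofReal_le_ofReal
    rw [hk]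
    show 16 * (1 / 2 : ℝ) ^ p.1 * (1 / 2 : ℝ) ^ p.2 ≤ 16 * (1 / 2 : ℝ) ^ p.1 * (3 / 4 : ℝ) ^ p.2
    have : (1 / 2 : ℝ) ^ p.2 ≤ (3 / 4 : ℝ) ^ p.2 :=
      pow_le_pow_left₀ (by norm_num) (by norm_num) _
    exact mul_le_mul_of_nonneg_left this (by positivity)
  refine ⟨4 * K ^ 2 * C + 1, by positivity, fun L hL S γ hγ G hG => ?_⟩
  have hL0 : 0 < L := by linarith
  have hlog : 0 ≤ Real.log L := Real.log_nonneg (by linarith)
  set I := ∫⁻ z, G z ^ 2 with hI
  have hF : ∀ p : ℕ × ℕ, cc p * ∫⁻ z, FF S γ G (ll L p) (ww L p) z ^ 2 ≤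
      ENNReal.ofReal (k p * (2 * C * (1 + Real.log L))) * I := by
    intro p
    have hl : 0 < ll L p := by unfold ll; positivity
    have hw : 0 < ww L p := by unfold ww; positivity
    have h1 : ∫⁻ z, FF S γ G (ll L p) (ww L p) z ^ 2 ≤
        ENNReal.ofReal (C * (1 + Real.log (1 + ll L p / ww L p))) * I :=
      hb (ll L p) (ww L p) hl hw S γ hγ G hG
    have h2 : Real.log (1 + ll L p / ww L p) ≤ (p.2 : ℝ) + 1 + Real.log L := by
      have e : ll L p / ww L p = 2 ^ p.2 / 2 ^ p.1 * L := by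
        unfold ll ww
        field_simp
      have h3 : ll L p / ww L p ≤ 2 ^ p.2 * L := by
        rw [e]
        gcongr
        exact div_le_self (by positivity) (one_le_pow₀ (by norm_num))
      have h4 : (1:ℝ) ≤ 2 ^ p.2 * L := by
        have : (1:ℝ) ≤ 2 ^ p.2 := one_le_pow₀ (by norm_num)
        nlinarith
      have h5 : 1 + ll L p / ww L p ≤ 2 ^ (p.2 + 1) * L := by
        rw [pow_succ]
        linarith
      calc Real.log (1 + ll L p / ww L p) ≤ Real.log (2 ^ (p.2 + 1) * L) :=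
            Real.log_le_log (by positivity) h5
        _ = (p.2 + 1 : ℕ) * Real.log 2 + Real.log L := by
            rw [Real.log_mul (by positivity) (by positivity), Real.log_pow]
        _ ≤ (p.2 : ℝ) + 1 + Real.log L := by
            have h6 : Real.log 2 ≤ 1 := by
              have := Real.log_two_lt_d9
              linarith
            push_cast
            have h7 : ((p.2 : ℝ) + 1) * Real.log 2 ≤ ((p.2 : ℝ) + 1) * 1 := by gcongr
            linarith
    have h3 : 1 + Real.log (1 + ll L p / ww L p) ≤ 2 * (3 / 2 : ℝ) ^ p.2 * (1 + Real.log L) := by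
      have h4 : (2:ℝ) + p.2 ≤ 2 * (3 / 2 : ℝ) ^ p.2 := by
        have := one_add_mul_le_pow (by norm_num : (-2:ℝ) ≤ 1 / 2) p.2
        norm_num at this ⊢
        linarith
      have h5 : (0:ℝ) ≤ p.2 := Nat.cast_nonneg _
      calc 1 + Real.log (1 + ll L p / ww L p) ≤ (2 + p.2) + Real.log L := by linarith
        _ ≤ (2 + p.2) * (1 + Real.log L) := by nlinarith
        _ ≤ 2 * (3 / 2 : ℝ) ^ p.2 * (1 + Real.log L) := by gcongr
    calc cc p * ∫⁻ z, FF S γ G (ll L p) (ww L p) z ^ 2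
        ≤ cc p * (ENNReal.ofReal (C * (1 + Real.log (1 + ll L p / ww L p))) * I) := by gcongr
      _ = ENNReal.ofReal (16 * (1 / 2 : ℝ) ^ p.1 * (1 / 2 : ℝ) ^ p.2 *
          (C * (1 + Real.log (1 + ll L p / ww L p)))) * I := by
          unfold cc
          rw [← mul_assoc, ← ENNReal.ofReal_mul (by positivity)]
      _ ≤ ENNReal.ofReal (k p * (2 * C * (1 + Real.log L))) * I := by
          refine mul_le_mul' (ENNReal.ofReal_le_ofReal ?_) le_rfl
          calc 16 * (1 / 2 : ℝ) ^ p.1 * (1 / 2 : ℝ) ^ p.2 *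
                (C * (1 + Real.log (1 + ll L p / ww L p)))
              ≤ 16 * (1 / 2 : ℝ) ^ p.1 * (1 / 2 : ℝ) ^ p.2 *
                (C * (2 * (3 / 2 : ℝ) ^ p.2 * (1 + Real.log L))) := by gcongr
            _ = 16 * (1 / 2 : ℝ) ^ p.1 * ((1 / 2 : ℝ) * (3 / 2)) ^ p.2 *
                (2 * C * (1 + Real.log L)) := by rw [mul_pow]; ring
            _ = k p * (2 * C * (1 + Real.log L)) := by rw [hk]; norm_num
  calc ∫⁻ z : ℝ × ℝ, (⨆ a ∈ S, ∫⁻ z', ENNReal.ofReal (Bk L (γ a) (z' - z)) * G z') ^ 2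
      ≤ ∫⁻ z : ℝ × ℝ, 2 * (∑' p, cc p) * ∑' p, cc p * FF S γ G (ll L p) (ww L p) z ^ 2 := by
        refine lintegral_mono fun z => ?_
        refine le_trans ?_ (sq_tsum_le cc (fun p => FF S γ G (ll L p) (ww L p) z))
        gcongr
        exact sup_le' S γ L hL hG z
    _ = 2 * (∑' p, cc p) * ∑' p, cc p * ∫⁻ z, FF S γ G (ll L p) (ww L p) z ^ 2 := by
        have hm : ∀ p : ℕ × ℕ, Measurable fun z => cc p * FF S γ G (ll L p) (ww L p) z ^ 2 :=
          fun p => ((FF_meas S γ hG _ _).pow_const 2).const_mul _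
        rw [lintegral_const_mul _ (Measurable.ennreal_tsum hm),
          lintegral_tsum fun p => (hm p).aemeasurable]
        congr 2
        funext p
        rw [lintegral_const_mul _ ((FF_meas S γ hG _ _).pow_const 2)]
    _ ≤ 2 * ENNReal.ofReal K *
        ∑' p, ENNReal.ofReal (k p * (2 * C * (1 + Real.log L))) * I := by
        exact mul_le_mul' (mul_le_mul' le_rfl hS) (ENNReal.tsum_le_tsum hF)
    _ = 2 * ENNReal.ofReal K * (ENNReal.ofReal (K * (2 * C * (1 + Real.log L))) * I) := by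
        rw [ENNReal.tsum_mul_right]
        congr 2
        have h9 : 0 ≤ 2 * C * (1 + Real.log L) := by positivity
        rw [hK, ← tsum_mul_right, ENNReal.ofReal_tsum_of_nonneg
          (fun p => mul_nonneg (hk0 p) h9) (hks.mul_right _)]
    _ = ENNReal.ofReal (2 * K * (K * (2 * C * (1 + Real.log L)))) * I := by
        rw [← mul_assoc]
        congr 1
        rw [ENNReal.ofReal_mul (by positivity : (0:ℝ) ≤ 2 * K), ENNReal.ofReal_mul (by norm_num : (0:ℝ) ≤ 2)]
        norm_num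
    _ ≤ ENNReal.ofReal ((4 * K ^ 2 * C + 1) * (1 + Real.log L) ^ 2) * I := by
        refine mul_le_mul' (ENNReal.ofReal_le_ofReal ?_) le_rfl
        have h1 : 1 + Real.log L ≤ (1 + Real.log L) ^ 2 := by nlinarith
        have h2 : 0 ≤ 4 * K ^ 2 * C := by positivity
        nlinarith

theorem Bk_cont1 (L : ℝ) (hL : 10 ≤ L) (w : ℝ × ℝ) : Continuous fun γ : ℝ => Bk L γ w := by
  unfold Bk
  have hL0 : 0 < L := by linarith
  refine Continuous.div continuous_const (by fun_prop) fun p => ?_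
  positivity

theorem Bk_cont2 (L : ℝ) (hL : 10 ≤ L) (γ : ℝ) :
    Continuous fun q : (ℝ × ℝ) × (ℝ × ℝ) => Bk L γ (q.2 - q.1) := by
  unfold Bk
  have hL0 : 0 < L := by linarith
  refine Continuous.div continuous_const (by fun_prop) fun p => ?_
  positivity

theorem Bk_cont3 (L : ℝ) (hL : 10 ≤ L) (γ : ℝ) (z' : ℝ × ℝ) :
    Continuous fun z : ℝ × ℝ => Bk L γ (z - z') := by
  unfold Bk
  have hL0 : 0 < L := by linarith
  refine Continuous.div continuous_const (by fun_prop) fun p => ?_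
  positivity

theorem Bk_tend (L : ℝ) (hL : 10 ≤ L) (w : ℝ × ℝ) (x : ℕ → ℝ) (γ : ℝ)
    (hx : Tendsto x atTop (𝓝 γ)) : Tendsto (fun n => Bk L (x n) w) atTop (𝓝 (Bk L γ w)) :=
  ((Bk_cont1 L hL w).tendsto γ).comp hx

theorem A_meas (L : ℝ) (hL : 10 ≤ L) (γ : ℝ) {G : ℝ × ℝ → ℝ≥0∞} (hG : Measurable G) :
    Measurable fun z : ℝ × ℝ => ∫⁻ z', ENNReal.ofReal (Bk L γ (z' - z)) * G z' := by
  have h0 : Measurable (fun q : (ℝ × ℝ) × (ℝ × ℝ) => ENNReal.ofReal (Bk L γ (q.2 - q.1))) :=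
    (Bk_cont2 L hL γ).measurable.ennreal_ofReal
  have h1 : Measurable (Function.uncurry fun (z z' : ℝ × ℝ) =>
      ENNReal.ofReal (Bk L γ (z' - z)) * G z') := h0.mul (hG.comp measurable_snd)
  exact h1.lintegral_prod_right' (ν := volume)

end Pool.Agent.TH484.J612

namespace Pool.Agent.TH278

open MeasureTheory Set Complex Filter Topology
open scoped ENNReal RealInnerProductSpace
open Pool.Agent.H438R2.RZ (e Good ft Pl Bump mA mC Arc Win sl SL Bk gA TR)
open Pool.Agent.H789R2.FR (E)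

theorem kakM : ∃ C : ℝ, 0 < C ∧ KakM C := by
  obtain ⟨C, hC, hfin⟩ := Pool.Agent.TH484.J612.kak_fin
  refine ⟨C, hC, ?_⟩
  intro L hL G hG
  have : Nonempty (Icc (-3 : ℝ) 3) := ⟨⟨0, by norm_num⟩⟩
  set q : ℕ → Icc (-3 : ℝ) 3 := TopologicalSpace.denseSeq (Icc (-3 : ℝ) 3) with hq
  have hdense : DenseRange q := TopologicalSpace.denseRange_denseSeq _
  set g : ℤ → ℝ := fun a => (q a.toNat : ℝ) with hg
  have hg3 : ∀ a, |g a| ≤ 3 := fun a => abs_le.mpr ⟨(q a.toNat).2.1, (q a.toNat).2.2⟩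
  set A : ℝ → ℝ × ℝ → ℝ≥0∞ := fun γ z => ∫⁻ z', ENNReal.ofReal (Bk L γ (z' - z)) * G z' with hA
  have hAm : ∀ γ, Measurable (A γ) := fun γ => Pool.Agent.TH484.J612.A_meas L hL γ hG
  set MN : ℕ → ℝ × ℝ → ℝ≥0∞ := fun N z => ⨆ a ∈ Finset.Icc (0 : ℤ) N, A (g a) z with hMN
  have hMNm : ∀ N, Measurable (MN N) := fun N =>
    Measurable.biSup (↑(Finset.Icc (0 : ℤ) N) : Set ℤ) (to_countable _) fun a _ => hAm (g a)
  have hmono : Monotone MN := by
    intro N N' h z
    refine iSup₂_le fun a ha => ?_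
    have ha' : a ∈ Finset.Icc (0 : ℤ) N' := by
      rw [Finset.mem_Icc] at ha ⊢
      refine ⟨ha.1, ha.2.trans ?_⟩
      exact_mod_cast h
    exact le_iSup₂ (f := fun (a : ℤ) (_ : a ∈ Finset.Icc (0 : ℤ) N') => A (g a) z) a ha'
  refine ⟨fun z => ⨆ N, MN N z, Measurable.iSup hMNm, ?_, ?_⟩
  · intro γ hγ z'
    have hγm : γ ∈ Icc (-3 : ℝ) 3 := abs_le.mp hγ
    have hcl : (⟨γ, hγm⟩ : Icc (-3 : ℝ) 3) ∈ closure (range q) := hdense _
    obtain ⟨x, hx1, hx2⟩ := mem_closure_iff_seq_limit.mp hcl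
    have hlim : ∀ z : ℝ × ℝ, Tendsto (fun n => ENNReal.ofReal (Bk L (x n : ℝ) (z - z')) * G z)
        atTop (𝓝 (ENNReal.ofReal (Bk L γ (z - z')) * G z)) := by
      intro z
      have h1 : Tendsto (fun n => (x n : ℝ)) atTop (𝓝 γ) :=
        (continuous_subtype_val.tendsto _).comp hx2
      have h2 : Tendsto (fun n => Bk L (x n : ℝ) (z - z')) atTop (𝓝 (Bk L γ (z - z'))) :=
        Pool.Agent.TH484.J612.Bk_tend L hL (z - z') _ γ h1
      have h3 := ENNReal.tendsto_ofReal h2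
      refine ENNReal.Tendsto.mul_const h3 (Or.inl ?_)
      have hL0 : 0 < L := by linarith
      rw [Ne, ENNReal.ofReal_eq_zero, not_le]
      unfold Bk
      positivity
    calc ∫⁻ z, ENNReal.ofReal (Bk L γ (z - z')) * G z
        = ∫⁻ z, liminf (fun n => ENNReal.ofReal (Bk L (x n : ℝ) (z - z')) * G z) atTop := by
          refine lintegral_congr fun z => ?_
          exact (hlim z).liminf_eq.symm
      _ ≤ liminf (fun n => ∫⁻ z, ENNReal.ofReal (Bk L (x n : ℝ) (z - z')) * G z) atTop := by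
          refine lintegral_liminf_le fun n => ?_
          refine Measurable.mul ?_ hG
          exact (Pool.Agent.TH484.J612.Bk_cont3 L hL (x n : ℝ) z').measurable.ennreal_ofReal
      _ ≤ ⨆ N, MN N z' := by
          refine Filter.liminf_le_of_le (by isBoundedDefault) fun b hb => ?_
          obtain ⟨n, hn⟩ := hb.exists
          refine hn.trans ?_
          obtain ⟨m, hm⟩ := hx1 n
          refine le_trans ?_ (le_iSup (fun N => MN N z') m)
          have h5 : ((m : ℤ)) ∈ Finset.Icc (0 : ℤ) m := by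
            rw [Finset.mem_Icc]
            omega
          have h6 : A (g (m : ℤ)) z' ≤ MN m z' :=
            le_iSup₂ (f := fun (a : ℤ) (_ : a ∈ Finset.Icc (0 : ℤ) m) => A (g a) z') (m : ℤ) h5
          have h7 : g (m : ℤ) = (x n : ℝ) := by
            rw [hg]
            simp only [Int.toNat_natCast]
            rw [hm]
          rw [h7] at h6
          exact h6
  · have h1 : ∀ z, (⨆ N, MN N z) ^ 2 = ⨆ N, (MN N z) ^ 2 := fun z => ENNReal.iSup_pow _ 2
    calc ∫⁻ z, (⨆ N, MN N z) ^ 2 = ∫⁻ z, ⨆ N, (MN N z) ^ 2 := by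
          refine lintegral_congr fun z => h1 z
      _ = ⨆ N, ∫⁻ z, (MN N z) ^ 2 := by
          refine lintegral_iSup (fun N => (hMNm N).pow_const 2) ?_
          intro N N' h z
          have := hmono h z
          simp only
          gcongr
      _ ≤ ENNReal.ofReal (C * (1 + Real.log L) ^ 2) * ∫⁻ z, G z ^ 2 := by
          refine iSup_le fun N => ?_
          exact hfin L hL (Finset.Icc (0 : ℤ) N) g (fun a _ => hg3 a) G hG

end Pool.Agent.TH278
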