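import Mathlib
import Pool.Agent.TH793.SB.Defs
set_option autoImplicit false

/-! # SB-8: rigidity -/

namespace Pool.Agent.TH484.J583

open Pool.Agent.TH793.SB

theorem org_mono {Y : Cfg} {S S' : Set Site} {c : Site} {K : ℕ} (h : S' ⊆ S)
    (hO : Org Y S c K) : Org Y S' c K :=
  fun k hk d hd u hu hL => hO k hk d hd u (h hu) hL

theorem dvd_congr {a b c c' : ℤ} {m K : ℕ} (hm : m ≤ K) (h : (2 : ℤ) ^ K ∣ c - c')
    (hb : b = a) : (2 : ℤ) ^ m ∣ a - c ↔ (2 : ℤ) ^ m ∣ b - c' := by
  subst hb
  have h2 : (2 : ℤ) ^ m ∣ c - c' := (pow_dvd_pow 2 hm).trans h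
  have e : b - c' = (b - c) + (c - c') := by ring
  rw [e]
  exact (dvd_add_left h2).symm

theorem lev_congr {c c' : Site} {k K : ℕ} (hk : k < K) (h : ∀ i, (2 : ℤ) ^ K ∣ c i - c' i)
    {d : Lab} {u : Site} (hL : Lev c k d u) : Lev c' k d u := by
  refine ⟨fun i => ?_, fun i => ?_⟩
  · exact (dvd_congr hk.le (h i) rfl).1 (hL.1 i)
  · rw [hL.2 i, dvd_congr (Nat.succ_le_of_lt hk) (h i) rfl]

theorem org_congr {Y : Cfg} {S : Set Site} {c c' : Site} {K : ℕ}
    (h : ∀ i, (2 : ℤ) ^ K ∣ c i - c' i) (hO : Org Y S c K) : Org Y S c' K := by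
  intro k hk d hd u hu hL
  refine hO k hk d hd u hu (lev_congr hk (fun i => ?_) hL)
  have := h i
  rw [← neg_sub, dvd_neg]
  exact this

/-- big boxes -/
def bb (K : ℕ) (n : ℤ) : Set Site := box (fun _ => -n) (fun _ => 2 * n + 2 ^ K)

theorem bb_mono {K : ℕ} {m n : ℤ} (h : m ≤ n) : bb K m ⊆ bb K n := by
  intro u hu i
  have := hu i
  simp only at this ⊢
  constructor <;> omega

theorem mem_bb (K : ℕ) (u : Site) : ∃ n : ℤ, 0 ≤ n ∧ u ∈ bb K n := by
  refine ⟨∑ i, |u i|, Finset.sum_nonneg fun i _ => abs_nonneg _, fun i => ?_⟩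
  have h1 : |u i| ≤ ∑ i, |u i| :=
    Finset.single_le_sum (f := fun i => |u i|) (fun i _ => abs_nonneg _) (Finset.mem_univ i)
  have h2 := abs_le.mp h1
  have h3 : (0 : ℤ) < 2 ^ K := by positivity
  simp only
  constructor <;> omega

theorem valid_org (hB : BoxThm) (hU : OrgUnique) (X : Cfg) (hX : Valid X) (K : ℕ) :
    ∃ c, Org X Set.univ c K := by
  have hfree : ∀ n, Free X (bb K n) := fun n u _ => hX u
  have h2 : (0 : ℤ) < 2 ^ K := by positivity
  obtain ⟨c, hc⟩ := hB X K _ _ (fun i => by simp : ∀ i : Fin 3, 2 ^ K ≤ 2 * (0:ℤ) + 2 ^ K) (hfree 0)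
  refine ⟨c, ?_⟩
  intro k hk d hd u _ hL
  obtain ⟨n, hn0, hn⟩ := mem_bb K u
  obtain ⟨c', hc'⟩ := hB X K (fun _ => -n) (fun _ => 2 * n + 2 ^ K) (fun i => by simp; omega)
    (hfree n)
  have h3 : Org X (bb K 0) c' K := org_mono (bb_mono hn0) hc'
  have h4 : ∀ i, (2 : ℤ) ^ K ∣ c i - c' i :=
    hU X K (fun _ => -0) (fun _ => 2 * 0 + 2 ^ K) (fun i => by simp) c c' hc h3
  exact hc' k hk d hd u hn (lev_congr hk h4 hL)

/-- offsets agree for configurations with finite difference -/
theorem org_both (hB : BoxThm) (hU : OrgUnique) (X Y : Cfg) (hX : Valid X) (hY : Valid Y)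
    (hfin : {u | Y u ≠ X u}.Finite) (K : ℕ) :
    ∃ c, Org X Set.univ c K ∧ Org Y Set.univ c K := by
  obtain ⟨c, hc⟩ := valid_org hB hU X hX K
  obtain ⟨c', hc'⟩ := valid_org hB hU Y hY K
  refine ⟨c, hc, ?_⟩
  -- a far box
  have hbd : ∃ n : ℤ, ∀ u, Y u ≠ X u → u 0 < n := by
    have h1 : ((fun u : Site => u 0) '' {u | Y u ≠ X u}).Finite := hfin.image _
    obtain ⟨n, hn⟩ := h1.bddAbove
    refine ⟨n + 1, fun u hu => ?_⟩
    have := hn ⟨u, hu, rfl⟩
    simp only at this
    omega
  obtain ⟨n, hn⟩ := hbd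
  have hEq : ∀ u ∈ box (fun _ => n) (fun _ => 2 ^ K), Y u = X u := by
    intro u hu
    by_contra h
    have h1 := hn u h
    have h2 := (hu 0).1
    simp only at h2
    omega
  have h5 : Org X (box (fun _ => n) (fun _ => 2 ^ K)) c' K := by
    intro k hk d hd u hu hL
    rw [← hEq u hu]
    exact hc' k hk d hd u (Set.mem_univ _) hL
  have h6 := hU X K (fun _ => n) (fun _ => 2 ^ K) (fun i => le_refl _) c' c h5
    (org_mono (Set.subset_univ _) hc)
  exact org_congr h6 hc'

theorem exists_lev {c : Site} {K : ℕ} {u : Site} (h : ¬ InP c K u) :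
    ∃ k < K, ∃ d : Lab, d ≠ zl ∧ Lev c k d u := by
  classical
  have h0 : InP c 0 u := fun i => by simp
  -- the largest k with InP
  have hex : ∃ k, k < K ∧ InP c k u ∧ ¬ InP c (k + 1) u := by
    by_contra hcon
    push Not at hcon
    have : ∀ k, k ≤ K → InP c k u := by
      intro k
      induction k with
      | zero => intro _; exact h0
      | succ k ih => intro hk; exact hcon k (by omega) (ih (by omega))
    exact h (this K le_rfl)
  obtain ⟨k, hk, h1, h2⟩ := hex
  refine ⟨k, hk, fun i => decide (¬ (2 : ℤ) ^ (k + 1) ∣ u i - c i), ?_, h1, fun i => by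
    simp⟩
  intro hz
  apply h2
  intro i
  have := congrFun hz i
  simp only [zl, decide_eq_false_iff_not, not_not] at this
  exact this

theorem eq_of_dvd {a : ℤ} (h : ∀ K : ℕ, (2 : ℤ) ^ K ∣ a) : a = 0 := by
  obtain ⟨n, hn⟩ : ∃ n : ℕ, a.natAbs < 2 ^ n := ⟨a.natAbs, Nat.lt_two_pow_self⟩
  apply Int.eq_zero_of_abs_lt_dvd (h n)
  rw [Int.abs_eq_natAbs]
  exact_mod_cast hn

theorem st_add (u : Site) (i : Fin 3) (n : ℤ) : u + st i n + st i 1 = u + st i (n + 1) := by
  funext j
  simp only [Pi.add_apply, st]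
  split_ifs <;> ring

theorem st_inj (u : Site) (i : Fin 3) : Function.Injective fun n : ℤ => u + st i n := by
  intro m n h
  have := congrFun h i
  simpa [st] using this

theorem rigid (hB : BoxThm) (hU : OrgUnique) : Rigid := by
  intro X Y hX hY hfin
  choose c hcX hcY using org_both hB hU X Y hX hY hfin
  -- finite sites
  let Fi : Site → Prop := fun u => ∃ K, ¬ InP (c K) K u
  have hlab : ∀ u, Fi u → ∃ k, ∃ d : Lab, d ≠ zl ∧ lab (X u) = d ∧ okLev k (X u) ∧
      lab (Y u) = d ∧ okLev k (Y u) := by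
    rintro u ⟨K, hK⟩
    obtain ⟨k, hk, d, hd, hL⟩ := exists_lev hK
    obtain ⟨h1, h2⟩ := hcX K k hk d hd u (Set.mem_univ _) hL
    obtain ⟨h3, h4⟩ := hcY K k hk d hd u (Set.mem_univ _) hL
    exact ⟨k, d, hd, h1, h2, h3, h4⟩
  have huniq : ∀ u v, ¬ Fi u → ¬ Fi v → u = v := by
    intro u v hu hv
    simp only [Fi, not_exists, not_not] at hu hv
    funext i
    have : u i - v i = 0 := by
      apply eq_of_dvd
      intro K
      have h1 := hu K i
      have h2 := hv K i
      have e : u i - v i = (u i - c K i) - (v i - c K i) := by ring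
      rw [e]
      exact dvd_sub h1 h2
    omega
  -- X = Y at finite sites
  have hA : ∀ u, Fi u → Y u = X u := by
    intro u hu
    by_contra hne
    obtain ⟨k, d, hd, hx1, hx2, hy1, hy2⟩ := hlab u hu
    have hi : ∃ i, lab (Y u) = el i := by
      by_contra hcon
      push Not at hcon
      exact hne (act_eq (hy1.trans hx1.symm) hy2 hx2 hcon)
    obtain ⟨i, hi⟩ := hi
    have hiX : lab (X u) = el i := by rw [hx1, ← hy1, hi]
    have hdiff : In i (Y u) ≠ In i (X u) := fun h => hne (pass_inj hi hiX h)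
    set δ : ZMod 127 := In i (Y u) - In i (X u) with hδ
    have hδ0 : δ ≠ 0 := sub_ne_zero.mpr hdiff
    -- the property along the line
    let P : ℤ → Prop := fun n => Fi (u + st i n) ∧ lab (X (u + st i n)) = el i ∧
      lab (Y (u + st i n)) = el i ∧ In i (Y (u + st i n)) - In i (X (u + st i n)) = δ
    have hst0 : u + st i 0 = u := by
      funext j
      simp [st]
    have hP0 : P 0 := by
      simp only [P, hst0]
      exact ⟨hu, hiX, hi, rfl⟩
    have hPne : ∀ n, P n → Y (u + st i n) ≠ X (u + st i n) := by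
      intro n hn h
      have h1 := hn.2.2.2
      rw [h, sub_self] at h1
      exact hδ0 h1.symm
    have hfinP : {n | P n}.Finite := by
      have h1 : {n | P n} ⊆ (fun n : ℤ => u + st i n) ⁻¹' {u | Y u ≠ X u} :=
        fun n hn => hPne n hn
      exact (hfin.preimage (st_inj u i).injOn).subset h1
    -- forward
    have hfw : ∀ n, P n → Fi (u + st i (n + 1)) → P (n + 1) := by
      intro n hn hF
      have gX := hX (u + st i n) i
      have gY := hY (u + st i n) i
      rw [st_add, pass hn.2.1] at gX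
      rw [st_add, pass hn.2.2.1] at gY
      have hd1 : In i (Y (u + st i (n + 1))) - In i (X (u + st i (n + 1))) = δ := by
        rw [gX, gY, ← hn.2.2.2]
        ring
      obtain ⟨k', d', hd', hx1', hx2', hy1', hy2'⟩ := hlab _ hF
      by_cases hl : lab (X (u + st i (n + 1))) = el i
      · exact ⟨hF, hl, by rw [hy1', ← hx1', hl], hd1⟩
      · exfalso
        have := (stop_eq (hx1'.trans hy1'.symm) hx2' hy2' hl).1
        rw [this, sub_self] at hd1
        exact hδ0 hd1.symm
    have hbw : ∀ n, P (n + 1) → Fi (u + st i n) → P n := by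
      intro n hn hF
      have gX := hX (u + st i n) i
      have gY := hY (u + st i n) i
      rw [st_add] at gX
      rw [st_add] at gY
      have hd1 : Out i (Y (u + st i n)) - Out i (X (u + st i n)) = δ := by
        rw [← hn.2.2.2, gX, gY]
        ring
      obtain ⟨k', d', hd', hx1', hx2', hy1', hy2'⟩ := hlab _ hF
      by_cases hl : lab (X (u + st i n)) = el i
      · have hl' : lab (Y (u + st i n)) = el i := by rw [hy1', ← hx1', hl]
        refine ⟨hF, hl, hl', ?_⟩
        rw [← hd1, pass hl, pass hl']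
      · exfalso
        have := (stop_eq (hx1'.trans hy1'.symm) hx2' hy2' hl).2
        rw [this, sub_self] at hd1
        exact hδ0 hd1.symm
    have hex1 : ∃ n : ℕ, ¬ Fi (u + st i ((n : ℤ) + 1)) := by
      by_contra hcon
      push Not at hcon
      have hall : ∀ n : ℕ, P n := by
        intro n
        induction n with
        | zero => exact hP0
        | succ n ih =>
          have := hfw n ih (hcon n)
          exact_mod_cast this
      have hinf : (Set.range fun n : ℕ => (n : ℤ)).Infinite :=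
        Set.infinite_range_of_injective Nat.cast_injective
      exact hinf (hfinP.subset (by rintro _ ⟨n, rfl⟩; exact hall n))
    have hex2 : ∃ n : ℕ, ¬ Fi (u + st i (-(n : ℤ) - 1)) := by
      by_contra hcon
      push Not at hcon
      have hall : ∀ n : ℕ, P (-(n : ℤ)) := by
        intro n
        induction n with
        | zero => simpa using hP0
        | succ n ih =>
          have h1 : P ((-(n : ℤ) - 1) + 1) := by
            rw [sub_add_cancel]
            exact ih
          have := hbw _ h1 (hcon n)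
          have e : -((n + 1 : ℕ) : ℤ) = -(n : ℤ) - 1 := by push_cast; ring
          rw [e]
          exact this
      have hinf : (Set.range fun n : ℕ => -(n : ℤ)).Infinite :=
        Set.infinite_range_of_injective (neg_injective.comp Nat.cast_injective)
      exact hinf (hfinP.subset (by rintro _ ⟨n, rfl⟩; exact hall n))
    obtain ⟨n, hn⟩ := hex1
    obtain ⟨m, hm⟩ := hex2
    have := st_inj u i (huniq _ _ hn hm)
    omega
  funext p
  by_cases hp : Fi p
  · exact hA p hp
  · apply inj
    intro i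
    have hnb : ∀ q, q ≠ p → Y q = X q := by
      intro q hq
      by_contra h
      have hq2 : ¬ Fi q := fun h2 => h (hA q h2)
      exact hq (huniq q p hq2 hp)
    have hne1 : p + st i 1 ≠ p := by
      intro h
      have := congrFun h i
      simp [st] at this
    have hne2 : p + st i (-1) ≠ p := by
      intro h
      have := congrFun h i
      simp [st] at this
    have e1 := hX p i
    have e2 := hY p i
    rw [hnb _ hne1, e1] at e2
    have e3 := hX (p + st i (-1)) i
    have e4 := hY (p + st i (-1)) i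
    have e5 : p + st i (-1) + st i 1 = p := by
      rw [st_add]
      funext j
      simp [st]
    rw [e5] at e3 e4
    rw [hnb _ hne2] at e4
    refine ⟨by rw [e4, e3], ?_⟩
    exact (add_right_cancel e2).symm

end Pool.Agent.TH484.J583
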