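import Mathlib
import Pool.Agent.TH279.RI.DefsX

set_option autoImplicit false

/-! # RI-POTENTIAL -/

namespace Pool.Agent.TH484.J598

open MeasureTheory Set
open scoped ENNReal NNReal
open Pool.Agent.TH279.RI

variable {d : ℕ}

/-- powers of two -/
noncomputable def E (x : ℝ) : ℝ≥0∞ := (2 : ℝ≥0∞) ^ x

lemma E_add (x y : ℝ) : E (x + y) = E x * E y := ENNReal.rpow_add _ _ (by norm_num) (by norm_num)
lemma E_zero : E 0 = 1 := ENNReal.rpow_zero
lemma E_one : E 1 = 2 := ENNReal.rpow_one _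
lemma E_mono {x y : ℝ} (h : x ≤ y) : E x ≤ E y :=
  ENNReal.rpow_le_rpow_of_exponent_le (by norm_num) h
lemma E_rpow (x y : ℝ) : E x ^ y = E (x * y) := (ENNReal.rpow_mul _ _ _).symm
lemma E_ne_top (x : ℝ) : E x ≠ ∞ := ENNReal.rpow_ne_top_of_ne_zero (by norm_num) (by norm_num)
lemma E_ne_zero (x : ℝ) : E x ≠ 0 := by
  unfold E
  exact (ENNReal.rpow_pos (by norm_num) (by norm_num)).ne'
lemma E_ofReal (x : ℝ) : E x = ENNReal.ofReal ((2 : ℝ) ^ x) := by
  unfold E
  rw [← ENNReal.ofReal_rpow_of_pos (by norm_num : (0:ℝ) < 2)]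
  norm_num

/-- centred open cubes -/
def Q (r : ℝ) : Set (Fin d → ℝ) := cube (fun _ => -r) (2 * r)

lemma mem_Q {r : ℝ} {x : Fin d → ℝ} : x ∈ Q r ↔ ∀ i, |x i| < r := by
  unfold Q cube
  simp only [mem_ofPred_eq]
  refine forall_congr' fun i => ?_
  rw [abs_lt]
  constructor
  · rintro ⟨h1, h2⟩; exact ⟨h1, by linarith⟩
  · rintro ⟨h1, h2⟩; exact ⟨h1, by linarith⟩

lemma Q_eq (r : ℝ) : (Q r : Set (Fin d → ℝ)) = pi univ fun _ => Ioo (-r) r := by
  ext x
  rw [mem_Q]
  simp [abs_lt]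

lemma Q_meas (r : ℝ) : MeasurableSet (Q r : Set (Fin d → ℝ)) := by
  rw [Q_eq]
  exact MeasurableSet.univ_pi fun _ => measurableSet_Ioo

lemma Q_vol (r : ℝ) : volume (Q r : Set (Fin d → ℝ)) = ENNReal.ofReal (2 * r) ^ d := by
  rw [Q_eq, Real.volume_pi_Ioo]
  simp only [Finset.prod_const, Finset.card_univ, Fintype.card_fin]
  congr 2
  ring

lemma Q_mono {r s : ℝ} (h : r ≤ s) : (Q r : Set (Fin d → ℝ)) ⊆ Q s := by
  intro x hx
  rw [mem_Q] at hx ⊢
  exact fun i => (hx i).trans_le h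

lemma Q_smul {r c : ℝ} (hc : 0 < c) (x : Fin d → ℝ) : c • x ∈ (Q (c * r) : Set (Fin d → ℝ)) ↔ x ∈ Q r := by
  rw [mem_Q, mem_Q]
  refine forall_congr' fun i => ?_
  simp only [Pi.smul_apply, smul_eq_mul, abs_mul, abs_of_pos hc]
  exact mul_lt_mul_iff_right₀ hc

/-- dyadic shells -/
def A (i : ℕ) : Set (Fin d → ℝ) := Q ((1 / 2) ^ (i + 1)) \ Q ((1 / 2) ^ (i + 2))

lemma A_meas (i : ℕ) : MeasurableSet (A i : Set (Fin d → ℝ)) := (Q_meas _).diff (Q_meas _)

lemma Q_vol' (i : ℕ) : volume (Q ((1 / 2) ^ (i + 1)) : Set (Fin d → ℝ)) = E (-(i * d)) := by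
  rw [Q_vol]
  have e : (2 : ℝ) * (1 / 2) ^ (i + 1) = 2 ^ (-(i : ℝ)) := by
    rw [Real.rpow_neg (by norm_num), Real.rpow_natCast, pow_succ, one_div, inv_pow]
    field_simp
  rw [e, ← E_ofReal, ← ENNReal.rpow_natCast, E_rpow]
  congr 1
  ring

lemma A_vol_le (i : ℕ) : volume (A i : Set (Fin d → ℝ)) ≤ E (-(i * d)) := by
  rw [← Q_vol']
  exact measure_mono sdiff_subset

lemma A_vol_ge (hd : 0 < d) (i : ℕ) : E (-((i + 1) * d)) ≤ volume (A i : Set (Fin d → ℝ)) := by
  have h1 : volume (Q ((1 / 2) ^ (i + 1)) : Set (Fin d → ℝ)) ≤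
      volume (A i : Set (Fin d → ℝ)) + volume (Q ((1 / 2) ^ (i + 1 + 1)) : Set (Fin d → ℝ)) := by
    refine (measure_mono ?_).trans (measure_union_le _ _)
    intro x hx
    by_cases h : x ∈ (Q ((1 / 2) ^ (i + 1 + 1)) : Set (Fin d → ℝ))
    · exact Or.inr h
    · exact Or.inl ⟨hx, h⟩
  rw [Q_vol', Q_vol'] at h1
  have hd1 : (1 : ℝ) ≤ d := by exact_mod_cast hd
  have h2 : E (-((i + 1) * d)) + E (-((i + 1) * d)) ≤ E (-(i * d)) := by
    rw [← two_mul, ← E_one, ← E_add]
    apply E_mono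
    nlinarith
  have h3 : E (-((i + 1) * d)) + E (-((i + 1) * d)) ≤
      volume (A i : Set (Fin d → ℝ)) + E (-((i + 1) * d)) := by
    refine h2.trans (h1.trans (le_of_eq ?_))
    congr 2
    push_cast
    ring
  exact (ENNReal.add_le_add_iff_right (E_ne_top _)).1 h3

lemma A_disj {i j : ℕ} (h : i ≠ j) : Disjoint (A i : Set (Fin d → ℝ)) (A j) := by
  wlog hij : i < j generalizing i j
  · exact (this (Ne.symm h) (by omega)).symm
  rw [Set.disjoint_left]
  rintro x ⟨_, h2⟩ ⟨h3, _⟩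
  apply h2
  apply Q_mono _ h3
  exact pow_le_pow_of_le_one (by norm_num) (by norm_num) (by omega)

/-- truncated potentials -/
noncomputable def k (q : ℝ) (N : ℕ) (x : Fin d → ℝ) : ℝ≥0∞ :=
  ∑ i ∈ Finset.range N, (A i).indicator (fun _ => E (i * d / q)) x

lemma k_meas (q : ℝ) (N : ℕ) : Measurable (k q N : (Fin d → ℝ) → ℝ≥0∞) := by
  unfold k
  exact Finset.measurable_sum _ fun i _ => measurable_const.indicator (A_meas i)

lemma k_pow {q : ℝ} (hq : 0 < q) (N : ℕ) (x : Fin d → ℝ) :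
    k q N x ^ q = ∑ i ∈ Finset.range N, (A i).indicator (fun _ => E (i * d)) x := by
  unfold k
  by_cases h : ∃ i ∈ Finset.range N, x ∈ (A i : Set (Fin d → ℝ))
  · obtain ⟨i, hi, hx⟩ := h
    have hz : ∀ c : ℕ → ℝ≥0∞, ∑ i ∈ Finset.range N, (A i).indicator (fun _ => c i) x = c i := by
      intro c
      rw [Finset.sum_eq_single i]
      · rw [indicator_of_mem hx]
      · intro j _ hj
        rw [indicator_of_notMem]
        intro hxj
        exact Set.disjoint_left.1 (A_disj hj) hxj hx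
      · intro h
        exact absurd hi h
    rw [hz, hz, E_rpow]
    congr 1
    field_simp
  · push Not at h
    have hz : ∀ c : ℕ → ℝ≥0∞, ∑ i ∈ Finset.range N, (A i).indicator (fun _ => c i) x = 0 := by
      intro c
      exact Finset.sum_eq_zero fun i hi => indicator_of_notMem (h i hi) _
    rw [hz, hz, ENNReal.zero_rpow_of_pos hq]

lemma k_int {q : ℝ} (hq : 0 < q) (N : ℕ) : ∫⁻ x : Fin d → ℝ, k q N x ^ q ≤ N := by
  simp_rw [k_pow hq]
  rw [lintegral_finsetSum _ fun i _ => measurable_const.indicator (A_meas i)]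
  calc ∑ i ∈ Finset.range N, ∫⁻ x : Fin d → ℝ, (A i).indicator (fun _ => E (i * d)) x
      ≤ ∑ i ∈ Finset.range N, 1 := by
        refine Finset.sum_le_sum fun i _ => ?_
        rw [lintegral_indicator_const (A_meas i)]
        calc E (i * d) * volume (A i : Set (Fin d → ℝ)) ≤ E (i * d) * E (-(i * d)) := by
              gcongr
              exact A_vol_le i
          _ = 1 := by rw [← E_add, add_neg_cancel, E_zero]
    _ = N := by simp

lemma assoc_mono (X : RINorm d) {g h : (Fin d → ℝ) → ℝ≥0∞} (H : ∀ x, g x ≤ h x) :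
    X.assoc g ≤ X.assoc h := by
  unfold RINorm.assoc
  refine iSup₂_mono fun f _ => lintegral_mono fun x => ?_
  gcongr
  exact H x

lemma assoc_mul (X : RINorm d) {g : (Fin d → ℝ) → ℝ≥0∞} (hg : Measurable g) (c : ℝ≥0∞) :
    c * X.assoc g ≤ X.assoc (fun x => c * g x) := by
  unfold RINorm.assoc
  rw [ENNReal.mul_iSup]
  refine iSup_mono fun f => ?_
  rw [ENNReal.mul_iSup]
  refine iSup_mono fun hf => ?_
  have h1 : c * ∫⁻ x, f x * g x = ∫⁻ x, c * (f x * g x) :=
    (lintegral_const_mul _ (hf.1.mul hg)).symm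
  rw [h1]
  refine lintegral_mono fun x => le_of_eq ?_
  ring

lemma A_smul (i j : ℕ) (y : Fin d → ℝ) : ((1 / 2 : ℝ) ^ j) • y ∈ (A (i + j) : Set (Fin d → ℝ)) ↔ y ∈ A i := by
  unfold A
  have hc : (0:ℝ) < (1 / 2) ^ j := by positivity
  have e1 : (1 / 2 : ℝ) ^ (i + j + 1) = (1 / 2) ^ j * (1 / 2) ^ (i + 1) := by ring
  have e2 : (1 / 2 : ℝ) ^ (i + j + 2) = (1 / 2) ^ j * (1 / 2) ^ (i + 2) := by ring
  rw [e1, e2, mem_sdiff, mem_sdiff, Q_smul hc, Q_smul hc]

lemma tau_ge (q : ℝ) (M j : ℕ) (hj : j < M) (y : Fin d → ℝ) :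
    E (j * d / q) * k q M y ≤
      tau ((1 / 2) ^ j) (cube (fun _ => -(1 / 2) ^ (j + 1)) ((1 / 2) ^ j)) (k q (2 * M)) y := by
  have hQ : (cube (fun _ => -(1 / 2) ^ (j + 1)) ((1 / 2) ^ j) : Set (Fin d → ℝ)) =
      Q ((1 / 2) ^ (j + 1)) := by
    unfold Q
    congr 1
    ring
  rw [hQ]
  unfold tau
  by_cases h : ∃ i ∈ Finset.range M, y ∈ (A i : Set (Fin d → ℝ))
  · obtain ⟨i, hi, hy⟩ := h
    have h1 : ((1 / 2 : ℝ) ^ j) • y ∈ (A (i + j) : Set (Fin d → ℝ)) := (A_smul i j y).2 hy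
    have h2 : ((1 / 2 : ℝ) ^ j) • y ∈ (Q ((1 / 2) ^ (j + 1)) : Set (Fin d → ℝ)) := by
      refine Q_mono ?_ h1.1
      exact pow_le_pow_of_le_one (by norm_num) (by norm_num) (by omega)
    rw [indicator_of_mem h2]
    have e1 : k q M y = E (i * d / q) := by
      unfold k
      rw [Finset.sum_eq_single i]
      · rw [indicator_of_mem hy]
      · intro j _ hj
        rw [indicator_of_notMem]
        intro hxj
        exact Set.disjoint_left.1 (A_disj hj) hxj hy
      · intro h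
        exact absurd hi h
    have hi' := Finset.mem_range.1 hi
    have e2 : (A (i + j)).indicator (fun _ => E ((i + j : ℕ) * d / q)) (((1 / 2 : ℝ) ^ j) • y) ≤
        k q (2 * M) (((1 / 2 : ℝ) ^ j) • y) := by
      unfold k
      exact Finset.single_le_sum
        (f := fun i => (A i : Set (Fin d → ℝ)).indicator (fun _ => E (i * d / q))
          (((1 / 2 : ℝ) ^ j) • y)) (fun _ _ => zero_le)
        (Finset.mem_range.2 (by omega : i + j < 2 * M))
    rw [indicator_of_mem h1] at e2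
    refine le_trans (le_of_eq ?_) e2
    rw [e1, ← E_add]
    congr 1
    push_cast
    ring
  · push Not at h
    have : k q M y = 0 := Finset.sum_eq_zero fun i hi => indicator_of_notMem (h i hi) _
    rw [this, mul_zero]
    exact zero_le

lemma max_ge (X : RINorm d) (q : ℝ) (M j : ℕ) (hj : j < M) (x : Fin d → ℝ)
    (hx : x ∈ (A j : Set (Fin d → ℝ))) :
    E (j * d / q) * X.assoc (k q M) ≤ X.maxAssoc (k q (2 * M)) x := by
  calc E (j * d / q) * X.assoc (k q M) ≤ X.assoc (fun x => E (j * d / q) * k q M x) :=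
        assoc_mul X (k_meas q M) _
    _ ≤ X.assoc (tau ((1 / 2) ^ j) (cube (fun _ => -(1 / 2) ^ (j + 1)) ((1 / 2) ^ j))
        (k q (2 * M))) := assoc_mono X (tau_ge q M j hj)
    _ ≤ X.maxAssoc (k q (2 * M)) x := by
        unfold RINorm.maxAssoc
        have h1 : 0 < ((1 / 2 : ℝ) ^ j) ∧ x ∈ cube (fun _ => -(1 / 2) ^ (j + 1)) ((1 / 2) ^ j) := by
          refine ⟨by positivity, ?_⟩
          have hQ : (cube (fun _ => -(1 / 2) ^ (j + 1)) ((1 / 2) ^ j) : Set (Fin d → ℝ)) =
              Q ((1 / 2) ^ (j + 1)) := by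
            unfold Q
            congr 1
            ring
          rw [hQ]
          exact hx.1
        exact le_iSup_of_le (fun _ => -(1 / 2) ^ (j + 1)) (le_iSup_of_le ((1 / 2) ^ j)
          (le_iSup_of_le h1 le_rfl))

lemma assoc_le (hd : 0 < d) (X : RINorm d) {q : ℝ} (hq : 1 ≤ q) (B : ℝ≥0) (hB : X.MBound q B)
    (M : ℕ) : X.assoc (k q M) ≤ E (d + 1) * B := by
  have hq0 : 0 < q := by linarith
  rcases Nat.eq_zero_or_pos M with rfl | hM
  · have : X.assoc (k q 0) = 0 := by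
      unfold RINorm.assoc k
      simp
    rw [this]
    exact zero_le
  have h1 := hB (k q (2 * M)) (k_meas _ _)
  have h2 : (M : ℝ≥0∞) * (E (-d) * X.assoc (k q M) ^ q) ≤
      ∫⁻ x, X.maxAssoc (k q (2 * M)) x ^ q := by
    calc (M : ℝ≥0∞) * (E (-d) * X.assoc (k q M) ^ q)
        = ∑ j ∈ Finset.range M, E (-d) * X.assoc (k q M) ^ q := by simp
      _ ≤ ∑ j ∈ Finset.range M, ∫⁻ x, (A j : Set (Fin d → ℝ)).indicator
            (fun _ => E (j * d) * X.assoc (k q M) ^ q) x := by
          refine Finset.sum_le_sum fun j _ => ?_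
          rw [lintegral_indicator_const (A_meas j)]
          calc E (-d) * X.assoc (k q M) ^ q
              = E (j * d) * X.assoc (k q M) ^ q * E (-((j + 1) * d)) := by
                rw [mul_right_comm, ← E_add]
                congr 2
                ring
            _ ≤ _ := by
                gcongr
                exact A_vol_ge hd j
      _ = ∫⁻ x, ∑ j ∈ Finset.range M, (A j : Set (Fin d → ℝ)).indicator
            (fun _ => E (j * d) * X.assoc (k q M) ^ q) x :=
          (lintegral_finsetSum _ fun i _ => measurable_const.indicator (A_meas i)).symm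
      _ ≤ ∫⁻ x, X.maxAssoc (k q (2 * M)) x ^ q := by
          refine lintegral_mono fun x => ?_
          by_cases h : ∃ i ∈ Finset.range M, x ∈ (A i : Set (Fin d → ℝ))
          · obtain ⟨i, hi, hx⟩ := h
            rw [Finset.sum_eq_single i]
            · rw [indicator_of_mem hx]
              have h3 := max_ge X q M i (Finset.mem_range.1 hi) x hx
              calc E (i * d) * X.assoc (k q M) ^ q
                  = (E (i * d / q) * X.assoc (k q M)) ^ q := by
                    rw [ENNReal.mul_rpow_of_nonneg _ _ hq0.le, E_rpow]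
                    congr 2
                    field_simp
                _ ≤ _ := by gcongr
            · intro j _ hj
              rw [indicator_of_notMem]
              intro hxj
              exact Set.disjoint_left.1 (A_disj hj) hxj hx
            · intro h
              exact absurd hi h
          · push Not at h
            rw [Finset.sum_eq_zero fun i hi => indicator_of_notMem (h i hi) _]
            exact zero_le
  have h3 : (M : ℝ≥0∞) * (E (-d) * X.assoc (k q M) ^ q) ≤ M * ((B : ℝ≥0∞) ^ q * 2) := by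
    calc (M : ℝ≥0∞) * (E (-d) * X.assoc (k q M) ^ q) ≤ (B : ℝ≥0∞) ^ q * ((2 * M : ℕ) : ℝ≥0∞) := by
          refine h2.trans (h1.trans ?_)
          gcongr
          exact k_int hq0 _
      _ = _ := by push_cast; ring
  have hM0 : (M : ℝ≥0∞) ≠ 0 := by exact_mod_cast hM.ne'
  have h4 : E (-d) * X.assoc (k q M) ^ q ≤ (B : ℝ≥0∞) ^ q * 2 :=
    (ENNReal.mul_le_mul_iff_right hM0 (ENNReal.natCast_ne_top M)).1 h3
  have h5 : X.assoc (k q M) ^ q ≤ (E (d + 1) * B) ^ q := by
    calc X.assoc (k q M) ^ q = E d * (E (-d) * X.assoc (k q M) ^ q) := by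
          rw [← mul_assoc, ← E_add, add_neg_cancel, E_zero, one_mul]
      _ ≤ E d * ((B : ℝ≥0∞) ^ q * 2) := by gcongr
      _ = E (d + 1) * (B : ℝ≥0∞) ^ q := by rw [E_add, E_one]; ring
      _ ≤ E ((d + 1) * q) * (B : ℝ≥0∞) ^ q := by
          gcongr
          apply E_mono
          nlinarith [(Nat.cast_nonneg d : (0:ℝ) ≤ d)]
      _ = _ := by rw [ENNReal.mul_rpow_of_nonneg _ _ hq0.le, E_rpow]
  exact (ENNReal.rpow_le_rpow_iff hq0).1 h5

lemma holder (X : RINorm d) {f g : (Fin d → ℝ) → ℝ≥0∞} (hf : Measurable f)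
    (hfin : X.ρ f ≠ ∞) : ∫⁻ x, f x * g x ≤ X.ρ f * X.assoc g := by
  by_cases h0 : X.ρ f = 0
  · have h1 := (X.zero_iff f hf).1 h0
    have : ∫⁻ x, f x * g x = 0 := by
      rw [show (0 : ℝ≥0∞) = ∫⁻ _ : Fin d → ℝ, 0 by simp]
      refine lintegral_congr_ae ?_
      filter_upwards [h1] with x hx
      rw [hx, zero_mul]
    rw [this]
    exact zero_le
  set c : ℝ≥0 := (X.ρ f).toNNReal with hc
  have hcf : (c : ℝ≥0∞) = X.ρ f := ENNReal.coe_toNNReal hfin
  have hc0 : c ≠ 0 := by
    intro h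
    rw [h] at hcf
    exact h0 hcf.symm
  have h1 : X.ρ (fun x => ((c⁻¹ : ℝ≥0) : ℝ≥0∞) * f x) ≤ 1 := by
    rw [X.smul _ _ hf, ← hcf, ← ENNReal.coe_mul, inv_mul_cancel₀ hc0]
    exact le_rfl
  have h2 : ∫⁻ x, (((c⁻¹ : ℝ≥0) : ℝ≥0∞) * f x) * g x ≤ X.assoc g := by
    unfold RINorm.assoc
    exact le_iSup₂ (f := fun (f : (Fin d → ℝ) → ℝ≥0∞) (_ : Measurable f ∧ X.ρ f ≤ 1) =>
      ∫⁻ x, f x * g x) (fun x => ((c⁻¹ : ℝ≥0) : ℝ≥0∞) * f x) ⟨hf.const_mul _, h1⟩
  calc ∫⁻ x, f x * g x = ∫⁻ x, (c : ℝ≥0∞) * ((((c⁻¹ : ℝ≥0) : ℝ≥0∞) * f x) * g x) := by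
        refine lintegral_congr fun x => ?_
        rw [← mul_assoc, ← mul_assoc, ← ENNReal.coe_mul, mul_inv_cancel₀ hc0, ENNReal.coe_one, one_mul]
    _ = (c : ℝ≥0∞) * ∫⁻ x, (((c⁻¹ : ℝ≥0) : ℝ≥0∞) * f x) * g x :=
        lintegral_const_mul' _ _ ENNReal.coe_ne_top
    _ ≤ X.ρ f * X.assoc g := by
        rw [hcf]
        gcongr

/-- radius of the centred cube of volume `w` -/
noncomputable def rad (d : ℕ) (w : ℝ≥0∞) : ℝ := w.toReal ^ ((d : ℝ)⁻¹) / 2

lemma rad_vol (hd : 0 < d) {w : ℝ≥0∞} (hw : w ≠ ∞) :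
    volume (Q (rad d w) : Set (Fin d → ℝ)) = w := by
  rw [Q_vol]
  have e : 2 * rad d w = w.toReal ^ ((d : ℝ)⁻¹) := by unfold rad; ring
  rw [e, ← ENNReal.ofReal_pow (by positivity),
    Real.rpow_inv_natCast_pow ENNReal.toReal_nonneg hd.ne', ENNReal.ofReal_toReal hw]

lemma rad_mono {v w : ℝ≥0∞} (h : v ≤ w) (hw : w ≠ ∞) : rad d v ≤ rad d w := by
  unfold rad
  have h1 : v.toReal ≤ w.toReal := ENNReal.toReal_mono hw h
  have h2 : v.toReal ^ ((d : ℝ)⁻¹) ≤ w.toReal ^ ((d : ℝ)⁻¹) :=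
    Real.rpow_le_rpow ENNReal.toReal_nonneg h1 (by positivity)
  linarith

lemma cube_int (hd : 0 < d) {p q : ℝ} (hpq : p.HolderConjugate q) {w : ℝ≥0∞} (hw : w ≤ 1) :
    ∃ M0 : ℕ, ∀ M, M0 ≤ M → w ^ (1 / p) ≤ E (2 * d) * ∫⁻ x in (Q (rad d w) : Set (Fin d → ℝ)),
      k q M x := by
  have hp0 : 0 < p := hpq.pos
  have hq0 : 0 < q := hpq.symm.pos
  have hwt : w ≠ ∞ := ne_top_of_le_ne_top ENNReal.one_ne_top hw
  have hinv : 1 / p + 1 / q = 1 := by
    have := hpq.inv_add_inv_eq_one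
    rw [one_div, one_div]
    exact this
  by_cases hw0 : w = 0
  · refine ⟨0, fun M _ => ?_⟩
    rw [hw0, ENNReal.zero_rpow_of_pos (by positivity)]
    exact zero_le
  have hwr : 0 < w.toReal := ENNReal.toReal_pos hw0 hwt
  have hwr1 : w.toReal ≤ 1 := by
    have := ENNReal.toReal_mono ENNReal.one_ne_top hw
    simpa using this
  set s : ℝ := w.toReal ^ ((d : ℝ)⁻¹) with hs
  have hs0 : 0 < s := Real.rpow_pos_of_pos hwr _
  have hs1 : s ≤ 1 := Real.rpow_le_one hwr.le hwr1 (by positivity)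
  obtain ⟨i, hi1, hi2⟩ := exists_nat_pow_near_of_lt_one hs0 hs1 (by norm_num : (0:ℝ) < 1 / 2)
    (by norm_num)
  have hrad : rad d w = s / 2 := rfl
  refine ⟨i + 2, fun M hM => ?_⟩
  have h1 : w ≤ E (-(i * d)) := by
    rw [← rad_vol hd hwt, ← Q_vol' (d := d) i]
    apply measure_mono
    apply Q_mono
    rw [hrad, pow_succ]
    linarith
  have h2 : (A (i + 1) : Set (Fin d → ℝ)) ⊆ Q (rad d w) := by
    refine sdiff_subset.trans (Q_mono ?_)
    rw [hrad, pow_succ]
    linarith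
  have h3 : E ((i + 1) * d / q) * E (-((i + 2) * d)) ≤
      ∫⁻ x in (Q (rad d w) : Set (Fin d → ℝ)), k q M x := by
    calc E ((i + 1) * d / q) * E (-((i + 2) * d))
        ≤ E ((i + 1) * d / q) * volume (A (i + 1) : Set (Fin d → ℝ)) := by
          gcongr
          refine le_trans (le_of_eq ?_) (A_vol_ge hd (i + 1))
          congr 1
          push_cast
          ring
      _ = ∫⁻ x in (A (i + 1) : Set (Fin d → ℝ)), E ((i + 1) * d / q) := by
          rw [setLIntegral_const]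
      _ ≤ ∫⁻ x in (A (i + 1) : Set (Fin d → ℝ)), k q M x := by
          refine setLIntegral_mono (k_meas q M) fun x hx => ?_
          unfold k
          have h4 := Finset.single_le_sum
            (f := fun i => (A i : Set (Fin d → ℝ)).indicator (fun _ => E (i * d / q))
              x) (fun _ _ => zero_le)
            (Finset.mem_range.2 (by omega : i + 1 < M))
          refine le_trans (le_of_eq ?_) h4
          rw [indicator_of_mem hx]
          push_cast
          rfl
      _ ≤ _ := lintegral_mono_set h2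
  calc w ^ (1 / p) ≤ E (-(i * d)) ^ (1 / p) := by gcongr
    _ = E (-(i * d) * (1 / p)) := E_rpow _ _
    _ ≤ E (2 * d + ((i + 1) * d / q + -((i + 2) * d))) := by
        apply E_mono
        have e1 : ((i : ℝ) + 1) * d / q = (i + 1) * d * (1 - 1 / p) := by
          have : 1 - 1 / p = 1 / q := by linarith
          rw [this]
          ring
        rw [e1]
        have h5 : 1 / p ≤ 1 := by
          rw [div_le_one hp0]
          exact hpq.lt.le
        have h6 : (0:ℝ) ≤ d := Nat.cast_nonneg d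
        nlinarith
    _ = E (2 * d) * (E ((i + 1) * d / q) * E (-((i + 2) * d))) := by rw [E_add, E_add]
    _ ≤ _ := by gcongr

open scoped Classical in
lemma level_set {α : Type*} (J : Finset ℤ) (c : ℤ → ℝ≥0∞) (A : ℤ → Set α)
    (hA : ∀ m ∈ J, ∀ n ∈ J, m ≤ n → A n ⊆ A m) (t : ℝ≥0∞) :
    {x | t < ∑ m ∈ J, (A m).indicator (fun _ => c m) x} =
      if h : (J.filter fun j => t < ∑ m ∈ J.filter (· ≤ j), c m).Nonempty then
        A ((J.filter fun j => t < ∑ m ∈ J.filter (· ≤ j), c m).min' h) else ∅ := by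
  set Jt := J.filter fun j => t < ∑ m ∈ J.filter (· ≤ j), c m with hJt
  have hsum : ∀ x, ∑ m ∈ J, (A m).indicator (fun _ => c m) x = ∑ m ∈ J.filter (x ∈ A ·), c m := by
    intro x
    rw [Finset.sum_filter]
    refine Finset.sum_congr rfl fun m _ => ?_
    rw [indicator_apply]
  have key : ∀ x, t < ∑ m ∈ J, (A m).indicator (fun _ => c m) x →
      ∃ j ∈ Jt, x ∈ A j := by
    intro x hx
    rw [hsum] at hx
    have hne : (J.filter (x ∈ A ·)).Nonempty := by
      by_contra h
      rw [Finset.not_nonempty_iff_eq_empty] at h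
      rw [h, Finset.sum_empty] at hx
      exact absurd hx (not_lt.mpr zero_le)
    have hj := Finset.max'_mem _ hne
    set j := (J.filter (x ∈ A ·)).max' hne with hjdef
    rw [Finset.mem_filter] at hj
    refine ⟨j, ?_, hj.2⟩
    rw [hJt, Finset.mem_filter]
    refine ⟨hj.1, hx.trans_le (Finset.sum_le_sum_of_subset ?_)⟩
    intro m hm
    rw [Finset.mem_filter] at hm ⊢
    exact ⟨hm.1, Finset.le_max' _ _ (Finset.mem_filter.2 hm)⟩
  split_ifs with h
  · ext x
    constructor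
    · intro hx
      obtain ⟨j, hj, hxj⟩ := key x hx
      have hm := Finset.min'_mem Jt h
      exact hA _ (Finset.mem_filter.1 hm).1 _ (Finset.mem_filter.1 hj).1
        (Finset.min'_le _ _ hj) hxj
    · intro hx
      have hm := Finset.min'_mem Jt h
      have hm' := Finset.mem_filter.1 hm
      show t < ∑ m ∈ J, (A m).indicator (fun _ => c m) x
      rw [hsum]
      refine hm'.2.trans_le (Finset.sum_le_sum_of_subset ?_)
      intro m hm2
      rw [Finset.mem_filter] at hm2 ⊢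
      exact ⟨hm2.1, hA _ hm2.1 _ hm'.1 hm2.2 hx⟩
  · ext x
    constructor
    · intro hx
      obtain ⟨j, hj, _⟩ := key x hx
      exact absurd ⟨j, hj⟩ h
    · intro hx
      exact absurd hx (notMem_empty x)

lemma equi (J : Finset ℤ) (c : ℤ → ℝ≥0∞) (A A' : ℤ → Set (Fin d → ℝ))
    (hA : ∀ m ∈ J, ∀ n ∈ J, m ≤ n → A n ⊆ A m) (hA' : ∀ m ∈ J, ∀ n ∈ J, m ≤ n → A' n ⊆ A' m)
    (hv : ∀ m ∈ J, volume (A m) = volume (A' m)) (t : ℝ≥0∞) :
    volume {x | t < ∑ m ∈ J, (A m).indicator (fun _ => c m) x} =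
      volume {x | t < ∑ m ∈ J, (A' m).indicator (fun _ => c m) x} := by
  classical
  rw [level_set J c A hA t, level_set J c A' hA' t]
  split_ifs with h
  · exact hv _ (Finset.mem_filter.1 (Finset.min'_mem _ h)).1
  · rfl

lemma rho_fin (X : RINorm d) (c : ℤ → ℝ≥0∞) (hc : ∀ m, c m ≠ ∞) (P : ℤ → Set (Fin d → ℝ))
    (hP : ∀ m, MeasurableSet (P m)) (J : Finset ℤ) (hv : ∀ m ∈ J, volume (P m) ≠ ∞) :
    X.ρ (fun x => ∑ m ∈ J, (P m).indicator (fun _ => c m) x) ≠ ∞ := by
  classical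
  induction J using Finset.induction_on with
  | empty =>
    simp only [Finset.sum_empty]
    rw [(X.zero_iff (fun _ => 0) measurable_const).2 (Filter.EventuallyEq.refl _ _)]
    exact ENNReal.zero_ne_top
  | insert a s ha ih =>
    simp only [Finset.sum_insert ha]
    have h1 : Measurable fun x => (P a).indicator (fun _ => c a) x :=
      measurable_const.indicator (hP a)
    have h2 : Measurable fun x => ∑ m ∈ s, (P m).indicator (fun _ => c m) x :=
      Finset.measurable_sum _ fun i _ => measurable_const.indicator (hP i)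
    refine ne_top_of_le_ne_top ?_ (X.add_le _ _ h1 h2)
    refine ENNReal.add_ne_top.2 ⟨?_, ih fun m hm => hv m (Finset.mem_insert_of_mem hm)⟩
    have e : ((P a).indicator (fun _ => c a)) =
        fun x => (((c a).toNNReal : ℝ≥0) : ℝ≥0∞) * (P a).indicator (fun _ => 1) x := by
      funext x
      rw [ENNReal.coe_toNNReal (hc a)]
      by_cases hx : x ∈ P a
      · rw [indicator_of_mem hx, indicator_of_mem hx, mul_one]
      · rw [indicator_of_notMem hx, indicator_of_notMem hx, mul_zero]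
    rw [e, X.smul _ _ (measurable_const.indicator (hP a))]
    refine ENNReal.mul_ne_top ENNReal.coe_ne_top ?_
    exact (X.fin _ (hP a) (hv a (Finset.mem_insert_self _ _)).lt_top).ne

lemma geo_sum {p : ℝ} (J : Finset ℤ) (n : ℤ) :
    ∑ m ∈ J.filter (· ≤ n), E ((m : ℝ) / p) ≤ E ((n : ℝ) / p) * (1 - E (-1 / p))⁻¹ := by
  classical
  set F : ℕ → ℝ≥0∞ := fun l => E (((n : ℝ) - l) / p) with hF
  have h1 : ∑ m ∈ J.filter (· ≤ n), E ((m : ℝ) / p) =
      ∑ m ∈ J.filter (· ≤ n), F (n - m).toNat := by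
    refine Finset.sum_congr rfl fun m hm => ?_
    have hm' := (Finset.mem_filter.1 hm).2
    simp only [hF]
    congr 2
    have : (((n - m).toNat : ℤ) : ℝ) = (n : ℝ) - m := by
      rw [Int.toNat_of_nonneg (by omega)]
      push_cast
      ring
    rw [Int.cast_natCast] at this
    rw [this]
    ring
  have h2 : ∑ m ∈ J.filter (· ≤ n), F (n - m).toNat =
      ∑ l ∈ (J.filter (· ≤ n)).image (fun m => (n - m).toNat), F l := by
    rw [Finset.sum_image]
    intro a ha b hb hab
    have ha' := (Finset.mem_filter.1 ha).2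
    have hb' := (Finset.mem_filter.1 hb).2
    simp only at hab
    omega
  rw [h1, h2]
  refine (ENNReal.sum_le_tsum _).trans (le_of_eq ?_)
  have h3 : F = fun l => E ((n : ℝ) / p) * E (-1 / p) ^ l := by
    funext l
    simp only [hF]
    rw [← ENNReal.rpow_natCast, E_rpow, ← E_add]
    congr 1
    ring
  rw [h3, ENNReal.tsum_mul_left, ENNReal.tsum_geometric]

end Pool.Agent.TH484.J598

namespace Pool.Agent.TH279.RI

open MeasureTheory Set
open scoped ENNReal NNReal
open Pool.Agent.TH484.J598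

theorem RINorm.potential {d : ℕ} (hd : 0 < d) {p q : ℝ} (hpq : p.HolderConjugate q) :
    ∃ C : ℝ≥0, ∀ (X : RINorm d) (B : ℝ≥0), X.MBound q B →
    ∀ (J : Finset ℤ) (P : ℤ → Set (Fin d → ℝ)), (∀ m, MeasurableSet (P m)) →
    (∀ m ∈ J, ∀ n ∈ J, m ≠ n → Disjoint (P m) (P n)) → (∑ m ∈ J, volume (P m) ≤ 1) →
    ∑ m ∈ J, (ENNReal.ofReal (2 ^ m) * volume (P m)) ^ (1 / p) ≤
      C * B * X.ρ (fun x => ∑ m ∈ J, (P m).indicator
        (fun _ => ENNReal.ofReal ((2 : ℝ) ^ ((m : ℝ) / p))) x) := by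
  classical
  have hp0 : 0 < p := hpq.pos
  have hq0 : 0 < q := hpq.symm.pos
  have hlt : E (-1 / p) < 1 := by
    rw [← E_zero]
    unfold E
    apply ENNReal.rpow_lt_rpow_of_exponent_lt (by norm_num) (by norm_num)
    rw [neg_div]
    have : 0 < 1 / p := by positivity
    linarith
  have hcp : (1 - E (-1 / p))⁻¹ ≠ ∞ := by
    rw [Ne, ENNReal.inv_eq_top, tsub_eq_zero_iff_le, not_le]
    exact hlt
  set c1 : ℝ≥0∞ := (1 - E (-1 / p))⁻¹ with hc1
  have hCtop : E (2 * d) * E (d + 1) * c1 ≠ ∞ :=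
    ENNReal.mul_ne_top (ENNReal.mul_ne_top (E_ne_top _) (E_ne_top _)) hcp
  refine ⟨(E (2 * d) * E (d + 1) * c1).toNNReal, ?_⟩
  intro X B hB J P hP hdisj hsum
  rw [ENNReal.coe_toNNReal hCtop]
  simp_rw [← E_ofReal]
  -- tail volumes
  set w : ℤ → ℝ≥0∞ := fun m => ∑ n ∈ J.filter (m ≤ ·), volume (P n) with hw
  have hw1 : ∀ m, w m ≤ 1 := fun m =>
    (Finset.sum_le_sum_of_subset (Finset.filter_subset _ _)).trans hsum
  have hwt : ∀ m, w m ≠ ∞ := fun m => ne_top_of_le_ne_top ENNReal.one_ne_top (hw1 m)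
  have hwmono : ∀ m n, m ≤ n → w n ≤ w m := by
    intro m n hmn
    refine Finset.sum_le_sum_of_subset ?_
    intro l hl
    rw [Finset.mem_filter] at hl ⊢
    exact ⟨hl.1, hmn.trans hl.2⟩
  have hPw : ∀ m ∈ J, volume (P m) ≤ w m := by
    intro m hm
    exact Finset.single_le_sum (f := fun n => volume (P n)) (fun _ _ => zero_le)
      (Finset.mem_filter.2 ⟨hm, le_rfl⟩)
  set U : ℤ → Set (Fin d → ℝ) := fun m => ⋃ n ∈ J.filter (m ≤ ·), P n with hU
  have hUm : ∀ m, MeasurableSet (U m) := fun m =>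
    Finset.measurableSet_biUnion _ fun n _ => hP n
  have hUv : ∀ m, volume (U m) = w m := by
    intro m
    rw [hU, hw]
    refine measure_biUnion_finset ?_ fun n _ => hP n
    intro a ha b hb hab
    exact hdisj a (Finset.mem_filter.1 ha).1 b (Finset.mem_filter.1 hb).1 hab
  have hUmono : ∀ m ∈ J, ∀ n ∈ J, m ≤ n → U n ⊆ U m := by
    intro m _ n _ hmn x hx
    simp only [hU, mem_iUnion, Finset.mem_filter, exists_prop] at hx ⊢
    obtain ⟨l, ⟨hl1, hl2⟩, hl3⟩ := hx
    exact ⟨l, ⟨hl1, hmn.trans hl2⟩, hl3⟩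
  set R : ℤ → Set (Fin d → ℝ) := fun m => Q (rad d (w m)) with hR
  have hRmono : ∀ m ∈ J, ∀ n ∈ J, m ≤ n → R n ⊆ R m := by
    intro m _ n _ hmn
    exact Q_mono (rad_mono (hwmono m n hmn) (hwt m))
  have hRU : ∀ m ∈ J, volume (R m) = volume (U m) := by
    intro m _
    rw [hUv]
    exact rad_vol hd (hwt m)
  set c : ℤ → ℝ≥0∞ := fun m => E ((m : ℝ) / p) with hc
  set g : (Fin d → ℝ) → ℝ≥0∞ := fun x => ∑ m ∈ J, (R m).indicator (fun _ => c m) x with hg
  set g0 : (Fin d → ℝ) → ℝ≥0∞ := fun x => ∑ m ∈ J, (U m).indicator (fun _ => c m) x with hg0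
  set f : (Fin d → ℝ) → ℝ≥0∞ := fun x => ∑ m ∈ J, (P m).indicator (fun _ => c m) x with hf
  have hgm : Measurable g :=
    Finset.measurable_sum _ fun i _ => measurable_const.indicator (Q_meas _)
  have hg0m : Measurable g0 :=
    Finset.measurable_sum _ fun i _ => measurable_const.indicator (hUm i)
  have hfm : Measurable f :=
    Finset.measurable_sum _ fun i _ => measurable_const.indicator (hP i)
  have hρ : X.ρ g = X.ρ g0 := X.rearr g g0 hgm hg0m fun t => equi J c R U hRmono hUmono hRU t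
  have hpt : ∀ x, g0 x ≤ c1 * f x := by
    intro x
    by_cases hx : ∃ n ∈ J, x ∈ P n
    · obtain ⟨n, hn, hxn⟩ := hx
      have e1 : f x = c n := by
        simp only [hf]
        rw [Finset.sum_eq_single n]
        · rw [indicator_of_mem hxn]
        · intro m hm hmn
          rw [indicator_of_notMem]
          intro hxm
          exact Set.disjoint_left.1 (hdisj m hm n hn hmn) hxm hxn
        · intro h
          exact absurd hn h
      have e2 : g0 x ≤ ∑ m ∈ J.filter (· ≤ n), c m := by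
        simp only [hg0]
        rw [Finset.sum_filter]
        refine Finset.sum_le_sum fun m hm => ?_
        by_cases hxU : x ∈ U m
        · rw [indicator_of_mem hxU]
          simp only [hU, mem_iUnion, Finset.mem_filter, exists_prop] at hxU
          obtain ⟨l, ⟨hl1, hl2⟩, hl3⟩ := hxU
          have hln : l = n := by
            by_contra h
            exact Set.disjoint_left.1 (hdisj l hl1 n hn h) hl3 hxn
          rw [if_pos (hln ▸ hl2)]
        · rw [indicator_of_notMem hxU]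
          exact zero_le
      rw [e1]
      refine e2.trans ((geo_sum J n).trans (le_of_eq ?_))
      rw [mul_comm]
    · push Not at hx
      have : g0 x = 0 := by
        simp only [hg0]
        refine Finset.sum_eq_zero fun m _ => ?_
        rw [indicator_of_notMem]
        intro hxU
        simp only [hU, mem_iUnion, Finset.mem_filter, exists_prop] at hxU
        obtain ⟨l, ⟨hl1, hl2⟩, hl3⟩ := hxU
        exact hx l hl1 hl3
      rw [this]
      exact zero_le
  have hρ0 : X.ρ g0 ≤ c1 * X.ρ f := by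
    have h1 : X.ρ g0 ≤ X.ρ (fun x => ((c1.toNNReal : ℝ≥0) : ℝ≥0∞) * f x) := by
      refine X.mono _ _ hg0m (hfm.const_mul _) (Filter.Eventually.of_forall fun x => ?_)
      rw [ENNReal.coe_toNNReal hcp]
      exact hpt x
    rw [X.smul _ _ hfm, ENNReal.coe_toNNReal hcp] at h1
    exact h1
  have hfin : X.ρ f ≠ ∞ := rho_fin X c (fun m => E_ne_top _) P hP J fun m hm =>
    ne_top_of_le_ne_top (hwt m) (hPw m hm)
  have hgfin : X.ρ g ≠ ∞ := by
    rw [hρ]
    exact ne_top_of_le_ne_top (ENNReal.mul_ne_top hcp hfin) hρ0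
  choose M0 hM0 using fun m => cube_int (d := d) hd hpq (hw1 m)
  set M : ℕ := J.sup M0 with hM
  have hstep : ∀ m ∈ J, (ENNReal.ofReal (2 ^ m) * volume (P m)) ^ (1 / p) ≤
      E (2 * d) * (c m * ∫⁻ x in R m, k q M x) := by
    intro m hm
    have e1 : ENNReal.ofReal ((2 : ℝ) ^ m) = E m := by
      rw [E_ofReal, Real.rpow_intCast]
    rw [e1, ENNReal.mul_rpow_of_nonneg _ _ (by positivity), E_rpow]
    calc E ((m : ℝ) * (1 / p)) * volume (P m) ^ (1 / p)
        ≤ c m * (w m) ^ (1 / p) := by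
          have e2 : E ((m : ℝ) * (1 / p)) = c m := by
            simp only [hc]
            congr 1
            ring
          rw [e2]
          gcongr
          exact hPw m hm
      _ ≤ c m * (E (2 * d) * ∫⁻ x in R m, k q M x) := by
          gcongr
          exact hM0 m M (Finset.le_sup hm)
      _ = _ := by ring
  calc ∑ m ∈ J, (ENNReal.ofReal (2 ^ m) * volume (P m)) ^ (1 / p)
      ≤ ∑ m ∈ J, E (2 * d) * (c m * ∫⁻ x in R m, k q M x) := Finset.sum_le_sum hstep
    _ = E (2 * d) * ∑ m ∈ J, c m * ∫⁻ x in R m, k q M x := by rw [Finset.mul_sum]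
    _ = E (2 * d) * ∫⁻ x, g x * k q M x := by
        congr 1
        have e : ∀ x, g x * k q M x = ∑ m ∈ J, (R m).indicator (fun x => c m * k q M x) x := by
          intro x
          simp only [hg]
          rw [Finset.sum_mul]
          refine Finset.sum_congr rfl fun m _ => ?_
          by_cases hx : x ∈ R m
          · rw [indicator_of_mem hx, indicator_of_mem hx]
          · rw [indicator_of_notMem hx, indicator_of_notMem hx, zero_mul]
        simp_rw [e]
        rw [lintegral_finsetSum _ fun m _ => ((k_meas q M).const_mul _).indicator (Q_meas _)]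
        refine Finset.sum_congr rfl fun m _ => ?_
        rw [lintegral_indicator (Q_meas _), lintegral_const_mul _ (k_meas q M)]
    _ ≤ E (2 * d) * (X.ρ g * X.assoc (k q M)) := by
        gcongr
        exact holder X hgm hgfin
    _ ≤ E (2 * d) * ((c1 * X.ρ f) * (E (d + 1) * B)) := by
        gcongr
        · rw [hρ]
          exact hρ0
        · exact assoc_le hd X hpq.symm.lt.le B hB M
    _ = _ := by ring

end Pool.Agent.TH279.RI
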