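import Pool.Agent.TH672.StrN
import Pool.Agent.TH241.J198
import Pool.Agent.TH545.J199
import Pool.Agent.TH551.J213

/-!
# The chain of truth predicates and consistency: derivations of polynomial length
-/

set_option autoImplicit false

namespace Pool.Agent.TH672

open Form

namespace J264

theorem closed_fX (n x : Sy) : (fX n x).Closed := by
  intro y hy
  simp [fX, free_alls, Fm.Free, ands] at hy
  omega

theorem av_fX (n x : Sy) : Av (fX n x) := by
  simp [fX, av_alls, ands, Av, ok]

theorem closed_fA (A : List Form) (n x : Sy) : (fA A n x).Closed := by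
  intro y hy
  simp [fA, free_alls, free_isS, Fm.Free] at hy
  omega

theorem av_fA (A : List Form) (n x : Sy) : Av (fA A n x) := by
  have h := av_isS (strs A) (z := 20) (by decide)
  simp [fA, av_alls, Av, ok, h]

theorem closed_fC (A : List Form) (n l x : Sy) : (fC A n l x).Closed := by
  intro y hy
  simp [fC, free_alls, free_isS, Fm.Free] at hy
  omega

theorem av_fC (A : List Form) (n l x : Sy) : Av (fC A n l x) := by
  have h := av_isS (strs A) (z := 20) (by decide)
  simp [fC, av_alls, Av, ok, h]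

theorem closed_fCon (A : List Form) (n : Sy) : (fCon A n).Closed := by
  intro y hy
  simp [fCon, free_alls, free_isS] at hy
  omega

theorem av_fCon (A : List Form) (n : Sy) : Av (fCon A n) := by
  have h := av_isS (strs A) (z := 20) (by decide)
  have h' := av_isS [false, false, false] (z := 22) (by decide)
  simp [fCon, av_alls, ok, h, h']

theorem closed_dX (s j : ℕ) : (defEq (.o j) (fD' (.o s))).Closed := by
  intro x hx
  simp [defEq, fD', free_exs, free_alls, Fm.Free, ands] at hx
  omega

theorem av_dX (s j : ℕ) : Av (defEq (.o j) (fD' (.o s))) := by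
  simp [defEq, fD', av_exs, av_alls, Av, ok, ands]

theorem sem_dX {S : Str Sy} {x x' : Sy} {v : ℕ → S.M} (h : Fm.Sat S (defEq x' (fD' x)) v) :
    S.r2 x' = SemD S (S.r2 x) := by
  funext a b
  have h1 := sat_defEq h a b b b
  rw [sat_fD'] at h1
  exact propext (by simpa [upd, Str.r2] using h1)

end J264

open J264

variable {J : Type} {sz : J → ℕ} {C : J → List Form}

theorem Setting.hx (E : Setting) {f : J → ℕ} (hf : Pb sz f) :
    PD E.Γ sz C (fun j => tr (mk E.b [Nf E.b (f j), Xf E.b (f j)]) (fX (.o 0) (.o 1))) := by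
  have main : PD E.Γ (fun p : Unit × ℕ => 0 + p.2) (fun _ => [])
      (fun p => tr (mk E.b [Nf E.b p.2, Xf E.b p.2]) (fX (.o 0) (.o 1))) := by
    have p2 : Pb (fun p : Unit × ℕ => 0 + p.2) (fun p => p.2) := Pb.size.mono fun p => by simp
    refine PD.ind (J := Unit) (sz := fun _ => 0) (C := fun _ => [])
      (F := fun _ k => tr (mk E.b [Nf E.b k, Xf E.b k]) (fX (.o 0) (.o 1))) ?_ ?_
    · refine E.stepM (Rs := [fun _ => Z0, fun _ => Form.bot]) ?_ [fZ (.o 0)] (fX (.o 0) (.o 1)) ?_
        (closed_fX _ _) (av_fX _ _) ?_ ?_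
      · intro R hR
        simp only [List.mem_cons, List.not_mem_nil, or_false] at hR
        rcases hR with rfl | rfl
        · exact role_Z0
        · exact E.xf_role' (f := fun _ => 0) (Pb.const 0)
      · intro ψ hψ
        simp only [List.mem_cons, List.not_mem_nil, or_false] at hψ
        rw [hψ]
        exact ⟨closed_fZ _, av_fZ _⟩
      · intro S v hM hv
        have h1 := (sat_fZ S _ v).1 (hv _ (List.mem_cons_self ..))
        rw [sat_fX]
        exact semX_zero hM fun k hk => (h1 k).1 hk
      · intro ψ hψ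
        simp only [List.mem_cons, List.not_mem_nil, or_false] at hψ
        rw [hψ]
        exact E.z0
    · refine E.stepM (Rs := [fun p : Unit × ℕ => Nf E.b p.2, fun p => Xf E.b p.2,
        fun p => Nf E.b (p.2 + 1), fun p => Xf E.b (p.2 + 1)]) ?_
        [fX (.o 0) (.o 1), defEq (.o 2) (dN (.o 0)), defEq (.o 3) (fD' (.o 1))]
        (fX (.o 2) (.o 3)) ?_ (closed_fX _ _) (av_fX _ _) ?_ ?_
      · intro R hR
        simp only [List.mem_cons, List.not_mem_nil, or_false] at hR
        rcases hR with rfl | rfl | rfl | rfl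
        · exact E.nf_role' p2
        · exact E.xf_role' p2
        · exact E.nf_role' (p2.add (Pb.const 1))
        · exact E.xf_role' (p2.add (Pb.const 1))
      · intro ψ hψ
        simp only [List.mem_cons, List.not_mem_nil, or_false] at hψ
        rcases hψ with rfl | rfl | rfl
        · exact ⟨closed_fX _ _, av_fX _ _⟩
        · exact ⟨closed_dN _ _, av_dN _ _⟩
        · exact ⟨closed_dX _ _, av_dX _ _⟩
      · intro S v hM hv
        have h1 := (sat_fX S _ _ v).1 (hv (fX (.o 0) (.o 1)) (by simp))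
        have h2 := sem_dN (hv (defEq (.o 2) (dN (.o 0))) (by simp))
        have h3 := sem_dX (hv (defEq (.o 3) (fD' (.o 1))) (by simp))
        rw [sat_fX, h3]
        exact semX_succ hM h1 fun k' hk' => (h2 k').1 hk'
      · intro ψ hψ
        simp only [List.mem_cons, List.not_mem_nil, or_false] at hψ
        rcases hψ with rfl | rfl | rfl
        · exact PD.hyp fun p => List.mem_cons_self ..
        · exact E.nf_succ p2
        · exact E.xf_succ p2
  have h1 := main.comp (sz' := sz) (fun j : J => ((), f j)) (by simpa using hf)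
  exact h1.ctx (by simp)

theorem Setting.ha (E : Setting) (hce : Complete Empty) (hA : ∀ φ ∈ E.Γ, φ.Closed)
    {f : J → ℕ} (hf : Pb sz f) :
    PD E.Γ sz C (fun j => tr (mk E.b [Nf E.b (f j), Xf E.b (f j)]) (fA E.Γ (.o 0) (.o 1))) := by
  refine E.stepM (Rs := [fun j => Nf E.b (f j), fun j => Xf E.b (f j)]) ?_
    (E.Γ.map emb' ++ [fX (.o 0) (.o 1)]) (fA E.Γ (.o 0) (.o 1)) ?_ (closed_fA _ _ _)
    (av_fA _ _ _) ?_ ?_
  · intro R hR
    simp only [List.mem_cons, List.not_mem_nil, or_false] at hR
    rcases hR with rfl | rfl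
    · exact E.nf_role' hf
    · exact E.xf_role' hf
  · intro ψ hψ
    rcases List.mem_append.1 hψ with h | h
    · obtain ⟨φ, h1, rfl⟩ := List.mem_map.1 h
      exact ⟨closed_emb' (hA φ h1), av_emb' φ⟩
    · simp only [List.mem_cons, List.not_mem_nil, or_false] at h
      rw [h]
      exact ⟨closed_fX _ _, av_fX _ _⟩
  · intro S v hM hv
    have h1 := (sat_fX S _ _ v).1 (hv (fX (.o 0) (.o 1)) (by simp))
    rw [sat_fA]
    refine semA_of hM E.Γ hA ?_ h1
    intro φ hφ w
    have h2 := hv (emb' φ) (List.mem_append_left _ (List.mem_map_of_mem hφ))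
    rw [sat_emb'] at h2
    refine (sat_congr ?_).1 h2
    intro x hx
    exact absurd (free_emb.1 hx) (hA φ hφ x)
  · intro ψ hψ
    rcases List.mem_append.1 hψ with h | h
    · obtain ⟨φ, h1, rfl⟩ := List.mem_map.1 h
      obtain ⟨K, hK⟩ := rename_step hce φ (hA φ h1)
      exact (PD.ax φ h1).cut (PD.const fun j => hK _ _ _ (List.mem_cons_self ..))
    · simp only [List.mem_cons, List.not_mem_nil, or_false] at h
      rw [h]
      exact E.hx hf

theorem Setting.hcc (E : Setting) (hce : Complete Empty) (hA : ∀ φ ∈ E.Γ, φ.Closed)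
    {f g : J → ℕ} (hf : Pb sz f) (hg : Pb sz g) :
    PD E.Γ sz C (fun j => tr (mk E.b [Nf E.b (f j), Nf E.b (g j), Xf E.b (f j)])
      (fC E.Γ (.o 0) (.o 1) (.o 2))) := by
  have p1 : Pb (fun p : ℕ × ℕ => id p.1 + p.2) (fun p => p.1) := Pb.size.mono fun p => by simp
  have p2 : Pb (fun p : ℕ × ℕ => id p.1 + p.2) (fun p => p.2) := Pb.size.mono fun p => by simp
  have main : PD E.Γ (fun p : ℕ × ℕ => id p.1 + p.2) (fun _ => [])
      (fun p => tr (mk E.b [Nf E.b p.1, Nf E.b p.2, Xf E.b p.1])
        (fC E.Γ (.o 0) (.o 1) (.o 2))) := by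
    refine PD.ind (J := ℕ) (sz := id) (C := fun _ => [])
      (F := fun q l => tr (mk E.b [Nf E.b q, Nf E.b l, Xf E.b q])
        (fC E.Γ (.o 0) (.o 1) (.o 2))) ?_ ?_
    · refine E.stepM (Rs := [fun q => Nf E.b q, fun _ => Z0, fun q => Xf E.b q]) ?_ [fZ (.o 1)]
        (fC E.Γ (.o 0) (.o 1) (.o 2)) ?_ (closed_fC _ _ _ _) (av_fC _ _ _ _) ?_ ?_
      · intro R hR
        simp only [List.mem_cons, List.not_mem_nil, or_false] at hR
        rcases hR with rfl | rfl | rfl
        · exact E.nf_role' Pb.size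
        · exact role_Z0
        · exact E.xf_role' Pb.size
      · intro ψ hψ
        simp only [List.mem_cons, List.not_mem_nil, or_false] at hψ
        rw [hψ]
        exact ⟨closed_fZ _, av_fZ _⟩
      · intro S v hM hv
        have h1 := (sat_fZ S _ v).1 (hv (fZ (.o 1)) (by simp))
        rw [sat_fC]
        exact semC_zero hM fun k hk => (h1 k).1 hk
      · intro ψ hψ
        simp only [List.mem_cons, List.not_mem_nil, or_false] at hψ
        rw [hψ]
        exact E.z0
    · refine PD.cut (F := fun p : ℕ × ℕ => tr (mk E.b [Nf E.b p.1, Nf E.b p.2, Xf E.b p.1,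
        Nf E.b (p.2 + 1)]) (fC E.Γ (.o 0) (.o 3) (.o 2))) ?_ ?_
      · refine E.stepM (Rs := [fun p : ℕ × ℕ => Nf E.b p.1, fun p => Nf E.b p.2,
          fun p => Xf E.b p.1, fun p => Nf E.b (p.2 + 1)]) ?_
          [fC E.Γ (.o 0) (.o 1) (.o 2), fX (.o 0) (.o 2), fA E.Γ (.o 0) (.o 2),
            defEq (.o 3) (dN (.o 1))]
          (fC E.Γ (.o 0) (.o 3) (.o 2)) ?_ (closed_fC _ _ _ _) (av_fC _ _ _ _) ?_ ?_
        · intro R hR
          simp only [List.mem_cons, List.not_mem_nil, or_false] at hR
          rcases hR with rfl | rfl | rfl | rfl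
          · exact E.nf_role' p1
          · exact E.nf_role' p2
          · exact E.xf_role' p1
          · exact E.nf_role' (p2.add (Pb.const 1))
        · intro ψ hψ
          simp only [List.mem_cons, List.not_mem_nil, or_false] at hψ
          rcases hψ with rfl | rfl | rfl | rfl
          · exact ⟨closed_fC _ _ _ _, av_fC _ _ _ _⟩
          · exact ⟨closed_fX _ _, av_fX _ _⟩
          · exact ⟨closed_fA _ _ _, av_fA _ _ _⟩
          · exact ⟨closed_dN _ _, av_dN _ _⟩
        · intro S v hM hv
          have h1 := (sat_fC S _ _ _ _ v).1 (hv (fC E.Γ (.o 0) (.o 1) (.o 2)) (by simp))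
          have h2 := (sat_fX S _ _ v).1 (hv (fX (.o 0) (.o 2)) (by simp))
          have h3 := (sat_fA S _ _ _ v).1 (hv (fA E.Γ (.o 0) (.o 2)) (by simp))
          have h4 := sem_dN (hv (defEq (.o 3) (dN (.o 1))) (by simp))
          rw [sat_fC]
          exact semC_succ hM h2 h3 (fun k' hk' => (h4 k').1 hk') h1
        · intro ψ hψ
          simp only [List.mem_cons, List.not_mem_nil, or_false] at hψ
          rcases hψ with rfl | rfl | rfl | rfl
          · refine PD.hyp fun p => ?_
            refine List.mem_cons.2 (Or.inl ?_)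
            simp only [trR, fC, alls, imps, tr, List.map_cons, List.map_nil]
            rw [tr_isS, tr_isS (mk E.b [Nf E.b p.1, Nf E.b p.2, Xf E.b p.1])]
            rfl
          · exact E.hx p1
          · have h := E.ha (C := fun p : ℕ × ℕ => [tr (mk E.b [Nf E.b p.1, Nf E.b p.2, Xf E.b p.1])
              (fC E.Γ (.o 0) (.o 1) (.o 2))]) hce hA p1
            refine (h.cut (G := _) (PD.hyp fun p => ?_))
            refine List.mem_cons.2 (Or.inl ?_)
            simp only [trR, fA, alls, imps, tr, List.map_cons, List.map_nil]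
            rw [tr_isS, tr_isS (mk E.b [Nf E.b p.1, Xf E.b p.1])]
            rfl
          · exact E.nf_succ p2
      · refine PD.hyp fun p => ?_
        refine List.mem_cons.2 (Or.inl ?_)
        simp only [fC, alls, imps, tr]
        rw [tr_isS, tr_isS (mk E.b [Nf E.b p.1, Nf E.b p.2, Xf E.b p.1, Nf E.b (p.2 + 1)])]
        rfl
  have h1 := main.comp (sz' := sz) (fun j : J => (f j, g j)) (hf.add hg)
  exact h1.ctx (by simp)

theorem Setting.con (E : Setting) (hce : Complete Empty) (hA : ∀ φ ∈ E.Γ, φ.Closed)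
    {f : J → ℕ} (hf : Pb sz f) :
    PD E.Γ sz C (fun j => tr (mk E.b [Nf E.b (f j)]) (fCon E.Γ (.o 0))) := by
  refine PD.cut (F := fun j => tr (mk E.b [Nf E.b (f j), Xf E.b (f j)]) (fCon E.Γ (.o 0))) ?_ ?_
  · refine E.stepM (Rs := [fun j => Nf E.b (f j), fun j => Xf E.b (f j)]) ?_
      [fX (.o 0) (.o 1), fC E.Γ (.o 0) (.o 0) (.o 1)] (fCon E.Γ (.o 0)) ?_ (closed_fCon _ _)
      (av_fCon _ _) ?_ ?_
    · intro R hR
      simp only [List.mem_cons, List.not_mem_nil, or_false] at hR
      rcases hR with rfl | rfl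
      · exact E.nf_role' hf
      · exact E.xf_role' hf
    · intro ψ hψ
      simp only [List.mem_cons, List.not_mem_nil, or_false] at hψ
      rcases hψ with rfl | rfl
      · exact ⟨closed_fX _ _, av_fX _ _⟩
      · exact ⟨closed_fC _ _ _ _, av_fC _ _ _ _⟩
    · intro S v hM hv
      have h1 := (sat_fX S _ _ v).1 (hv (fX (.o 0) (.o 1)) (by simp))
      have h2 := (sat_fC S _ _ _ _ v).1 (hv (fC E.Γ (.o 0) (.o 0) (.o 1)) (by simp))
      rw [sat_fCon]
      exact semC_con hM h1 h2
    · intro ψ hψ
      simp only [List.mem_cons, List.not_mem_nil, or_false] at hψ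
      rcases hψ with rfl | rfl
      · exact E.hx hf
      · refine (E.hcc hce hA hf hf).cut (PD.hyp fun j => ?_)
        refine List.mem_cons.2 (Or.inl ?_)
        simp only [trR, fC, alls, imps, tr, List.map_cons, List.map_nil]
        rw [tr_isS, tr_isS (mk E.b [Nf E.b (f j), Nf E.b (f j), Xf E.b (f j)])]
        rfl
  · refine PD.hyp fun j => ?_
    refine List.mem_cons.2 (Or.inl ?_)
    simp only [fCon, alls, imps, tr]
    rw [tr_isS, tr_isS (mk E.b [Nf E.b (f j), Xf E.b (f j)]), tr_isS (mk E.b [Nf E.b (f j)]) [false, false, false],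
      tr_isS (mk E.b [Nf E.b (f j), Xf E.b (f j)]) [false, false, false]]
    rfl

end Pool.Agent.TH672
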