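import Mathlib
import Pool.Agent.TH708.Nar.SplitDefs
set_option autoImplicit false

/-! # Balanced intervals with one hole can be cut into balanced pairs in few rounds -/

namespace Pool.Agent.TH484.J894

open Finset
open Pool.Agent.TH708.Nar

/-- kind of an element -/
def f (Y : Finset ℕ) (x : ℕ) : ℤ := if x ∈ Y then 1 else -1

/-- balanced sets -/
def Bal (Y A : Finset ℕ) : Prop := ∑ x ∈ A, f Y x = 0

/-- walk -/
def W (Y : Finset ℕ) (t : ℕ) : ℤ := ∑ x ∈ range t, f Y x

lemma sum_f (Y A : Finset ℕ) : ∑ x ∈ A, f Y x = 2 * ((A ∩ Y).card : ℤ) - A.card := by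
  unfold f
  rw [Finset.sum_ite, Finset.sum_const, Finset.sum_const, ← Finset.filter_mem_eq_inter]
  have := Finset.card_filter_add_card_filter_not (s := A) (fun x => x ∈ Y)
  have h2 : (A.card : ℤ) = (A.filter (· ∈ Y)).card + (A.filter (fun x => ¬ x ∈ Y)).card := by
    exact_mod_cast this.symm
  rw [h2]
  simp only [nsmul_eq_mul, mul_one, mul_neg]
  ring

lemma bal_iff (Y A : Finset ℕ) : Bal Y A ↔ A.card = 2 * (A ∩ Y).card := by
  unfold Bal
  rw [sum_f]
  omega

lemma W_step (Y : Finset ℕ) (t : ℕ) : W Y (t + 1) = W Y t + 1 ∨ W Y (t + 1) = W Y t - 1 := by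
  unfold W
  rw [Finset.sum_range_succ]
  unfold f
  split_ifs
  · left; rfl
  · right; ring

lemma sum_Ico (Y : Finset ℕ) {a b : ℕ} (h : a ≤ b) :
    ∑ x ∈ Ico a b, f Y x = W Y b - W Y a := by
  unfold W
  rw [Finset.sum_Ico_eq_sub _ h]

lemma W_lip (F : ℕ → ℤ) (hF : ∀ t, F (t + 1) = F t + 1 ∨ F (t + 1) = F t - 1) (a d : ℕ) :
    F a - d ≤ F (a + d) ∧ F (a + d) ≤ F a + d := by
  induction d with
  | zero => simp
  | succ d ih =>
    have := hF (a + d)
    rw [← add_assoc]
    push_cast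
    omega

lemma W_par (F : ℕ → ℤ) (hF : ∀ t, F (t + 1) = F t + 1 ∨ F (t + 1) = F t - 1) (a d : ℕ) :
    (F (a + d) - F a - d) % 2 = 0 := by
  induction d with
  | zero => simp
  | succ d ih =>
    have := hF (a + d)
    rw [← add_assoc]
    push_cast
    omega

/-- windows -/
lemma window_aux (F : ℕ → ℤ) (hF : ∀ t, F (t + 1) = F t + 1 ∨ F (t + 1) = F t - 1) (i m : ℕ)
    (hm : 4 ≤ m) (h0 : F (i + m) = F i) (hn : ∀ a, i ≤ a → a + 2 * (m / 4) ≤ i + m →
      F (a + 2 * (m / 4)) ≠ F a) (hpos : F i < F (i + 2 * (m / 4))) : False := by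
  have key : ∀ d, i + d + 2 * (m / 4) ≤ i + m → F (i + d) + 2 ≤ F (i + d + 2 * (m / 4)) := by
    intro d
    induction d with
    | zero =>
      intro _
      have h1 := W_par F hF i (2 * (m / 4))
      have h2 := hn i le_rfl (by omega)
      push_cast at h1
      simp only [add_zero]
      omega
    | succ d ih =>
      intro hd
      have h1 := ih (by omega)
      have h2 := hF (i + d)
      have h3 := hF (i + d + 2 * (m / 4))
      have h4 := hn (i + (d + 1)) (by omega) hd
      have h5 := W_par F hF (i + (d + 1)) (2 * (m / 4))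
      have e1 : i + (d + 1) + 2 * (m / 4) = i + d + 2 * (m / 4) + 1 := by ring
      rw [e1] at h4 h5 ⊢
      rw [← add_assoc] at h4 h5 ⊢
      push_cast at h5
      omega
  have h1 := key 0 (by omega)
  have h2 := key (2 * (m / 4)) (by omega)
  have h3 := (W_lip F hF (i + 2 * (m / 4) + 2 * (m / 4)) (m - 4 * (m / 4))).1
  have e : i + 2 * (m / 4) + 2 * (m / 4) + (m - 4 * (m / 4)) = i + m := by omega
  rw [e] at h3
  simp only [add_zero] at h1
  omega

lemma window (F : ℕ → ℤ) (hF : ∀ t, F (t + 1) = F t + 1 ∨ F (t + 1) = F t - 1) (i m : ℕ)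
    (hm : 4 ≤ m) (h0 : F (i + m) = F i) : ∃ a, i ≤ a ∧ a + 2 * (m / 4) ≤ i + m ∧
      F (a + 2 * (m / 4)) = F a := by
  by_contra hcon
  push Not at hcon
  rcases lt_trichotomy (F i) (F (i + 2 * (m / 4))) with h | h | h
  · exact window_aux F hF i m hm h0 hcon h
  · exact hcon i le_rfl (by omega) h.symm
  · refine window_aux (fun t => - F t) (fun t => ?_) i m hm ?_ ?_ ?_
    · have := hF t
      omega
    · omega
    · intro a h1 h2
      have := hcon a h1 h2
      omega
    · omega

lemma stay (G : ℕ → ℤ) (p P : ℕ) (hG : ∀ t, p ≤ t → t < P → G (t + 1) = G t + 1 ∨ G (t + 1) = G t - 1)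
    (hp : p < P) (h1 : G (p + 1) = G p + 1) (hn : ∀ t, p < t → t ≤ P → G t ≠ G p) :
    G p < G P := by
  have key : ∀ d, p + 1 + d ≤ P → G p < G (p + 1 + d) := by
    intro d
    induction d with
    | zero => intro _; simp only [add_zero]; omega
    | succ d ih =>
      intro hd
      have h2 := ih (by omega)
      have h3 := hG (p + 1 + d) (by omega) (by omega)
      have h4 := hn (p + 1 + (d + 1)) (by omega) hd
      rw [← add_assoc] at h4 ⊢
      omega
  have := key (P - (p + 1)) (by omega)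
  have e : p + 1 + (P - (p + 1)) = P := by omega
  rwa [e] at this

lemma succ_aux (G R : ℕ → ℤ) (P Q p q : ℕ)
    (hG : ∀ t, t < P → G (t + 1) = G t + 1 ∨ G (t + 1) = G t - 1)
    (hR : ∀ t, t < Q → R (t + 1) = R t + 1 ∨ R (t + 1) = R t - 1)
    (hp : p < P) (hq : q < Q) (h : G p + R q = 0) (hPQ : G P + R Q = 0)
    (h1 : G (p + 1) = G p + 1) (h2 : R (q + 1) = R q + 1) :
    (∃ p', p < p' ∧ p' ≤ P ∧ G p' = G p) ∨ (∃ q', q < q' ∧ q' ≤ Q ∧ R q' = R q) := by
  by_contra hcon
  push Not at hcon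
  have e1 := stay G p P (fun t _ ht => hG t ht) hp h1 hcon.1
  have e2 := stay R q Q (fun t _ ht => hR t ht) hq h2 hcon.2
  omega

lemma succ_step (G R : ℕ → ℤ) (P Q p q : ℕ)
    (hG : ∀ t, t < P → G (t + 1) = G t + 1 ∨ G (t + 1) = G t - 1)
    (hR : ∀ t, t < Q → R (t + 1) = R t + 1 ∨ R (t + 1) = R t - 1)
    (hp : p ≤ P) (hq : q ≤ Q) (hne : p + q < P + Q) (h : G p + R q = 0) (hPQ : G P + R Q = 0) :
    (∃ p', p < p' ∧ p' ≤ P ∧ G p' = G p) ∨ (∃ q', q < q' ∧ q' ≤ Q ∧ R q' = R q) ∨
      (p < P ∧ q < Q ∧ (G (p + 1) - G p) + (R (q + 1) - R q) = 0) := by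
  rcases eq_or_lt_of_le hp with rfl | hp'
  · right; left
    exact ⟨Q, by omega, le_rfl, by omega⟩
  rcases eq_or_lt_of_le hq with rfl | hq'
  · left
    exact ⟨P, by omega, le_rfl, by omega⟩
  rcases hG p hp' with h1 | h1 <;> rcases hR q hq' with h2 | h2
  · rcases succ_aux G R P Q p q hG hR hp' hq' h hPQ h1 h2 with h3 | h3
    · exact Or.inl h3
    · exact Or.inr (Or.inl h3)
  · exact Or.inr (Or.inr ⟨hp', hq', by omega⟩)
  · exact Or.inr (Or.inr ⟨hp', hq', by omega⟩)
  · rcases succ_aux (fun t => - G t) (fun t => - R t) P Q p q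
      (fun t ht => by have := hG t ht; omega)
      (fun t ht => by have := hR t ht; omega) hp' hq'
      (by omega) (by omega) (by omega) (by omega)
      with ⟨p', h3, h4, h5⟩ | ⟨q', h3, h4, h5⟩
    · exact Or.inl ⟨p', h3, h4, by omega⟩
    · exact Or.inr (Or.inl ⟨q', h3, h4, by omega⟩)

/-- the middle layer -/
lemma choose_layer (G R : ℕ → ℤ) (P Q : ℕ)
    (hG : ∀ t, t < P → G (t + 1) = G t + 1 ∨ G (t + 1) = G t - 1)
    (hR : ∀ t, t < Q → R (t + 1) = R t + 1 ∨ R (t + 1) = R t - 1)
    (h0 : G 0 = 0) (h0' : R 0 = 0) (hPQ : G P + R Q = 0) (hpos : 0 < P + Q) :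
    ∃ p q p' q', p ≤ p' ∧ p' ≤ P ∧ q ≤ q' ∧ q' ≤ Q ∧ G p + R q = 0 ∧ G p' + R q' = 0 ∧
      2 * (p + q) ≤ P + Q ∧ P + Q < 2 * (p' + q') ∧
      ((q' = q ∧ G p' = G p) ∨ (p' = p ∧ R q' = R q) ∨
        (p' = p + 1 ∧ q' = q + 1 ∧ (G (p + 1) - G p) + (R (q + 1) - R q) = 0)) := by
  classical
  set S : Finset (ℕ × ℕ) := (range (P + 1) ×ˢ range (Q + 1)).filter
    (fun x => G x.1 + R x.2 = 0 ∧ 2 * (x.1 + x.2) ≤ P + Q) with hS
  have hSne : S.Nonempty := ⟨(0, 0), by
    rw [hS, mem_filter, mem_product, mem_range, mem_range]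
    exact ⟨⟨by simp, by simp⟩, by simp [h0, h0'], by simp⟩⟩
  obtain ⟨⟨p, q⟩, hpq, hmax⟩ := Finset.exists_max_image S (fun x => x.1 + x.2) hSne
  rw [hS, mem_filter, mem_product, mem_range, mem_range] at hpq
  obtain ⟨⟨hp, hq⟩, hal, hsz⟩ := hpq
  simp only at hp hq hal hsz
  have hmax' : ∀ p' q', p' ≤ P → q' ≤ Q → G p' + R q' = 0 → p + q < p' + q' →
      P + Q < 2 * (p' + q') := by
    intro p' q' h1 h2 h3 h4
    by_contra h5
    have h6 : (p', q') ∈ S := by
      rw [hS, mem_filter, mem_product, mem_range, mem_range]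
      exact ⟨⟨by simp only; omega, by simp only; omega⟩, h3, by simp only; omega⟩
    have := hmax _ h6
    simp only at this
    omega
  rcases succ_step G R P Q p q hG hR (by omega) (by omega) (by omega) hal hPQ with
    ⟨p', h1, h2, h3⟩ | ⟨q', h1, h2, h3⟩ | ⟨h1, h2, h3⟩
  · refine ⟨p, q, p', q, h1.le, h2, le_rfl, by omega, hal, by omega, hsz, ?_, Or.inl ⟨rfl, h3⟩⟩
    exact hmax' p' q h2 (by omega) (by omega) (by omega)
  · refine ⟨p, q, p, q', le_rfl, by omega, h1.le, h2, hal, by omega, hsz, ?_,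
      Or.inr (Or.inl ⟨rfl, h3⟩)⟩
    exact hmax' p q' (by omega) h2 (by omega) (by omega)
  · refine ⟨p, q, p + 1, q + 1, by omega, by omega, by omega, by omega, hal, by omega, hsz, ?_,
      Or.inr (Or.inr ⟨rfl, rfl, h3⟩)⟩
    exact hmax' (p + 1) (q + 1) (by omega) (by omega) (by omega) (by omega)

lemma oneHole_mk {n i k l j : ℕ} (h1 : i ≤ k) (h2 : k ≤ l) (h3 : l ≤ j) (h4 : j ≤ n) :
    OneHole n (Ico i k ∪ Ico l j) := ⟨i, k, l, j, h1, h2, h3, h4, rfl⟩

lemma oneHole_Ico {n a b : ℕ} (h1 : a ≤ b) (h2 : b ≤ n) : OneHole n (Ico a b) := by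
  refine ⟨a, b, b, b, h1, le_rfl, le_rfl, h2, ?_⟩
  simp

lemma oneHole_empty (n : ℕ) : OneHole n ∅ := ⟨0, 0, 0, 0, le_rfl, le_rfl, le_rfl, Nat.zero_le _, by simp⟩

lemma oneHole_pair {n a b : ℕ} (h : a ≠ b) (ha : a < n) (hb : b < n) : OneHole n {a, b} := by
  wlog hab : a < b generalizing a b
  · rw [Finset.pair_comm]
    exact this (Ne.symm h) hb ha (by omega)
  refine ⟨a, a + 1, b, b + 1, by omega, by omega, by omega, by omega, ?_⟩
  ext x
  simp only [mem_insert, mem_singleton, mem_union, mem_Ico]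
  omega

lemma splits_up {n : ℕ} {Y : Finset ℕ} {m : ℕ} {A : Finset ℕ} (hA : OneHole n A)
    (h : Splits n Y m A) : Splits n Y (m + 1) A := by
  have := Splits.split (n := n) (Y := Y) m A ∅ ∅ hA (oneHole_empty n) (oneHole_empty n)
    (disjoint_empty_right _) (disjoint_empty_right _) (disjoint_empty_right _) h
    (Splits.empty m) (Splits.empty m)
  simpa using this

lemma splits_mono {n : ℕ} {Y : Finset ℕ} {m m' : ℕ} {A : Finset ℕ} (hA : OneHole n A)
    (hm : m ≤ m') (h : Splits n Y m A) : Splits n Y m' A := by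
  induction m', hm using Nat.le_induction with
  | base => exact h
  | succ k _ ih => exact splits_up hA ih

lemma bal_union {Y A B : Finset ℕ} (h : Disjoint A B) (hA : Bal Y A) (hB : Bal Y B) :
    Bal Y (A ∪ B) := by
  unfold Bal at *
  rw [sum_union h, hA, hB, add_zero]

/-- peeling off one pair -/
lemma peel {n : ℕ} (Y A : Finset ℕ) (hn : ∀ x ∈ A, x < n) (hA : Bal Y A) :
    ∃ B C : Finset ℕ, A = B ∪ C ∧ Disjoint B C ∧ OneHole n B ∧ Splits n Y 0 B ∧ Bal Y C ∧
      C.card ≤ A.card - 2 := by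
  rcases A.eq_empty_or_nonempty with rfl | hne
  · exact ⟨∅, ∅, by simp, disjoint_empty_right _, oneHole_empty n, Splits.empty 0, hA, by simp⟩
  have hc := (bal_iff Y A).1 hA
  have hpos : 0 < A.card := hne.card_pos
  have h1 : (A ∩ Y).Nonempty := by
    rw [← Finset.card_pos]
    omega
  have h2 : (A \ Y).Nonempty := by
    rw [← Finset.card_pos]
    have := Finset.card_sdiff_add_card_inter A Y
    omega
  obtain ⟨a, ha⟩ := h1
  obtain ⟨b, hb⟩ := h2
  rw [mem_inter] at ha
  rw [mem_sdiff] at hb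
  have hab : a ≠ b := fun h => hb.2 (h ▸ ha.2)
  have hsub : {a, b} ⊆ A := by
    intro x hx
    rw [mem_insert, mem_singleton] at hx
    rcases hx with rfl | rfl
    · exact ha.1
    · exact hb.1
  refine ⟨{a, b}, A \ {a, b}, ?_, disjoint_sdiff, oneHole_pair hab (hn a ha.1) (hn b hb.1),
    Splits.pair a b ha.2 hb.2, ?_, ?_⟩
  · exact (union_sdiff_of_subset hsub).symm
  · unfold Bal at hA ⊢
    have e := Finset.sum_sdiff (f := f Y) hsub
    rw [hA, sum_pair hab] at e
    have e1 : f Y a = 1 := by simp [f, ha.2]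
    have e2 : f Y b = -1 := by simp [f, hb.2]
    rw [e1, e2] at e
    omega
  · rw [card_sdiff_of_subset hsub, card_pair hab]

lemma base {n : ℕ} (Y A : Finset ℕ) (hn : ∀ x ∈ A, x < n) (hA : Bal Y A) (hc : A.card ≤ 6) :
    Splits n Y 1 A := by
  obtain ⟨B1, C1, e1, d1, o1, s1, b1, c1⟩ := peel Y A hn hA
  have hn1 : ∀ x ∈ C1, x < n := fun x hx => hn x (e1 ▸ mem_union_right _ hx)
  obtain ⟨B2, C2, e2, d2, o2, s2, b2, c2⟩ := peel Y C1 hn1 b1
  have hn2 : ∀ x ∈ C2, x < n := fun x hx => hn1 x (e2 ▸ mem_union_right _ hx)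
  obtain ⟨B3, C3, e3, d3, o3, s3, b3, c3⟩ := peel Y C2 hn2 b2
  have hz : C3 = ∅ := by
    rw [← Finset.card_eq_zero]
    omega
  subst hz
  rw [union_empty] at e3
  subst e3
  subst e2
  subst e1
  rw [disjoint_union_right] at d1
  have := Splits.split 0 B1 B2 C2 o1 o2 o3 d1.1 d1.2 d2 s1 s2 s3
  simpa [union_assoc] using this

lemma mem_lt {n : ℕ} {A : Finset ℕ} (hA : OneHole n A) : ∀ x ∈ A, x < n := by
  obtain ⟨i, k, l, j, h1, h2, h3, h4, rfl⟩ := hA
  intro x hx
  rw [mem_union, mem_Ico, mem_Ico] at hx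
  omega

lemma card_hole {i k l j : ℕ} (h2 : k ≤ l) :
    (Ico i k ∪ Ico l j).card = (k - i) + (j - l) := by
  rw [card_union_of_disjoint, Nat.card_Ico, Nat.card_Ico]
  rw [Finset.disjoint_left]
  intro x hx hx'
  rw [mem_Ico] at hx hx'
  omega

lemma sum_hole (Y : Finset ℕ) {i k l j : ℕ} (h1 : i ≤ k) (h2 : k ≤ l) (h3 : l ≤ j) :
    ∑ x ∈ Ico i k ∪ Ico l j, f Y x = (W Y k - W Y i) + (W Y j - W Y l) := by
  rw [sum_union, sum_Ico Y h1, sum_Ico Y h3]
  rw [Finset.disjoint_left]
  intro x hx hx'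
  rw [mem_Ico] at hx hx'
  omega

/-- the onion lemma -/
lemma onion {n : ℕ} (Y A : Finset ℕ) (hA : OneHole n A) (hb : Bal Y A) (hne : A.Nonempty) :
    ∃ I M O : Finset ℕ, A = I ∪ M ∪ O ∧ Disjoint I M ∧ Disjoint I O ∧ Disjoint M O ∧
      OneHole n I ∧ OneHole n M ∧ OneHole n O ∧ Bal Y I ∧ Bal Y O ∧ 2 * I.card ≤ A.card ∧
      2 * O.card ≤ A.card ∧
      ((∃ a b, a ≤ b ∧ b ≤ n ∧ M = Ico a b ∧ Bal Y M ∧ M.card ≤ A.card) ∨
        (∃ a b, a ∈ Y ∧ b ∉ Y ∧ M = {a, b})) := by
  obtain ⟨i, k, l, j, h1, h2, h3, h4, rfl⟩ := hA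
  set P := k - i with hP
  set Q := j - l with hQ
  have hcard : (Ico i k ∪ Ico l j).card = P + Q := card_hole h2
  have hpos : 0 < P + Q := by rw [← hcard]; exact hne.card_pos
  unfold Bal at hb
  rw [sum_hole Y h1 h2 h3] at hb
  set G : ℕ → ℤ := fun p => W Y k - W Y (k - p) with hG
  set R : ℕ → ℤ := fun q => W Y (l + q) - W Y l with hR
  have hGs : ∀ t, t < P → G (t + 1) = G t + 1 ∨ G (t + 1) = G t - 1 := by
    intro t ht
    simp only [hG]
    have := W_step Y (k - (t + 1))
    have e : k - (t + 1) + 1 = k - t := by omega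
    rw [e] at this
    omega
  have hRs : ∀ t, t < Q → R (t + 1) = R t + 1 ∨ R (t + 1) = R t - 1 := by
    intro t ht
    simp only [hR]
    have := W_step Y (l + t)
    rw [← add_assoc]
    omega
  have ek : k - P = i := by omega
  have ej : l + Q = j := by omega
  have hPQ : G P + R Q = 0 := by
    simp only [hG, hR, ek, ej]
    omega
  obtain ⟨p, q, p', q', a1, a2, a3, a4, a5, a6, a7, a8, a9⟩ :=
    choose_layer G R P Q hGs hRs (by simp [hG]) (by simp [hR]) hPQ hpos
  -- the pieces
  have hIcard : (Ico (k - p) k ∪ Ico l (l + q)).card = p + q := by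
    rw [card_hole h2]; omega
  have hOcard : (Ico i (k - p') ∪ Ico (l + q') j).card = (P - p') + (Q - q') := by
    rw [card_hole (by omega)]; omega
  have hIbal : Bal Y (Ico (k - p) k ∪ Ico l (l + q)) := by
    unfold Bal
    rw [sum_hole Y (by omega) h2 (by omega)]
    exact a5
  have hObal : Bal Y (Ico i (k - p') ∪ Ico (l + q') j) := by
    unfold Bal
    rw [sum_hole Y (by omega) (by omega) (by omega)]
    simp only [hG, hR] at a6
    omega
  have hIo : OneHole n (Ico (k - p) k ∪ Ico l (l + q)) :=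
    oneHole_mk (by omega) h2 (by omega) (by omega)
  have hOo : OneHole n (Ico i (k - p') ∪ Ico (l + q') j) :=
    oneHole_mk (by omega) (by omega) (by omega) (by omega)
  have hIO : Disjoint (Ico (k - p) k ∪ Ico l (l + q)) (Ico i (k - p') ∪ Ico (l + q') j) := by
    rw [Finset.disjoint_left]
    intro x hx hx'
    simp only [mem_union, mem_Ico] at hx hx'
    omega
  have hI2 : 2 * (Ico (k - p) k ∪ Ico l (l + q)).card ≤ (Ico i k ∪ Ico l j).card := by
    rw [hIcard, hcard]; exact a7
  have hO2 : 2 * (Ico i (k - p') ∪ Ico (l + q') j).card ≤ (Ico i k ∪ Ico l j).card := by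
    rw [hOcard, hcard]; omega
  rcases a9 with ⟨rfl, h5⟩ | ⟨rfl, h5⟩ | ⟨rfl, rfl, h5⟩
  · refine ⟨_, Ico (k - p') (k - p), _, ?_, ?_, hIO, ?_, hIo, ?_, hOo, hIbal, hObal, hI2, hO2,
      Or.inl ⟨k - p', k - p, by omega, by omega, rfl, ?_, ?_⟩⟩
    · ext x
      simp only [mem_union, mem_Ico]
      omega
    · rw [Finset.disjoint_left]
      intro x hx hx'
      simp only [mem_union, mem_Ico] at hx hx'
      omega
    · rw [Finset.disjoint_left]
      intro x hx hx'
      simp only [mem_union, mem_Ico] at hx hx'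
      omega
    · exact oneHole_Ico (by omega) (by omega)
    · unfold Bal
      rw [sum_Ico Y (by omega)]
      simp only [hG] at h5
      omega
    · rw [hcard, Nat.card_Ico]
      omega
  · refine ⟨_, Ico (l + q) (l + q'), _, ?_, ?_, hIO, ?_, hIo, ?_, hOo, hIbal, hObal, hI2, hO2,
      Or.inl ⟨l + q, l + q', by omega, by omega, rfl, ?_, ?_⟩⟩
    · ext x
      simp only [mem_union, mem_Ico]
      omega
    · rw [Finset.disjoint_left]
      intro x hx hx'
      simp only [mem_union, mem_Ico] at hx hx'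
      omega
    · rw [Finset.disjoint_left]
      intro x hx hx'
      simp only [mem_union, mem_Ico] at hx hx'
      omega
    · exact oneHole_Ico (by omega) (by omega)
    · unfold Bal
      rw [sum_Ico Y (by omega)]
      simp only [hR] at h5
      omega
    · rw [hcard, Nat.card_Ico]
      omega
  · -- a pair
    have e1 : k - (p + 1) + 1 = k - p := by omega
    have hw1 : G (p + 1) - G p = f Y (k - (p + 1)) := by
      simp only [hG]
      have : W Y (k - (p + 1) + 1) = W Y (k - (p + 1)) + f Y (k - (p + 1)) := by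
        unfold W
        rw [Finset.sum_range_succ]
      rw [e1] at this
      omega
    have hw2 : R (q + 1) - R q = f Y (l + q) := by
      simp only [hR]
      have : W Y (l + q + 1) = W Y (l + q) + f Y (l + q) := by
        unfold W
        rw [Finset.sum_range_succ]
      rw [← add_assoc]
      omega
    rw [hw1, hw2] at h5
    have hne' : k - (p + 1) ≠ l + q := by omega
    refine ⟨_, {k - (p + 1), l + q}, _, ?_, ?_, hIO, ?_, hIo, oneHole_pair hne' (by omega)
      (by omega), hOo, hIbal, hObal, hI2, hO2, Or.inr ?_⟩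
    · ext x
      simp only [mem_union, mem_Ico, mem_insert, mem_singleton]
      omega
    · rw [Finset.disjoint_left]
      intro x hx hx'
      simp only [mem_union, mem_Ico, mem_insert, mem_singleton] at hx hx'
      omega
    · rw [Finset.disjoint_left]
      intro x hx hx'
      simp only [mem_union, mem_Ico, mem_insert, mem_singleton] at hx hx'
      omega
    · unfold f at h5
      by_cases hy : k - (p + 1) ∈ Y
      · refine ⟨k - (p + 1), l + q, hy, ?_, rfl⟩
        intro hy'
        rw [if_pos hy, if_pos hy'] at h5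
        omega
      · refine ⟨l + q, k - (p + 1), ?_, hy, Finset.pair_comm _ _⟩
        by_contra hy'
        rw [if_neg hy, if_neg hy'] at h5
        omega

/-- main induction -/
theorem main (n : ℕ) (Y : Finset ℕ) (r : ℕ) : ∀ A : Finset ℕ, OneHole n A → Bal Y A →
    A.card ≤ 2 ^ (r + 2) + 2 → Splits n Y (2 * r + 1) A := by
  induction r with
  | zero =>
    intro A hA hb hc
    exact base Y A (mem_lt hA) hb (by simpa using hc)
  | succ r ih =>
    intro A hA hb hc
    rcases A.eq_empty_or_nonempty with rfl | hne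
    · exact Splits.empty _
    obtain ⟨I, M, O, e, d1, d2, d3, oI, oM, oO, bI, bO, cI, cO, hM⟩ := onion Y A hA hb hne
    have h4 : 4 ≤ 2 ^ (r + 2) := by
      calc 4 = 2 ^ 2 := by norm_num
        _ ≤ 2 ^ (r + 2) := Nat.pow_le_pow_right (by norm_num) (by omega)
    have hpow : 2 ^ (r + 1 + 2) = 2 * 2 ^ (r + 2) := by ring
    have sI : Splits n Y (2 * r + 1) I := ih I oI bI (by omega)
    have sO : Splits n Y (2 * r + 1) O := ih O oO bO (by omega)
    have sM : Splits n Y (2 * r + 2) M := by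
      rcases hM with ⟨a, b, hab, hbn, rfl, bM, cM⟩ | ⟨a, b, ha, hb', rfl⟩
      · by_cases hsm : (Ico a b).card ≤ 2 ^ (r + 2) + 2
        · exact splits_up oM (ih _ oM bM hsm)
        · rw [Nat.card_Ico] at hsm cM
          have hm : 4 ≤ b - a := by omega
          unfold Bal at bM
          rw [sum_Ico Y hab] at bM
          obtain ⟨c, c1, c2, c3⟩ := window (W Y) (W_step Y) a (b - a) hm (by
            have : a + (b - a) = b := by omega
            rw [this]
            omega)
          set h := 2 * ((b - a) / 4) with hh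
          have hcb : c + h ≤ b := by omega
          have o1 : OneHole n (Ico c (c + h)) := oneHole_Ico (by omega) (by omega)
          have o2 : OneHole n (Ico a c ∪ Ico (c + h) b) :=
            oneHole_mk c1 (by omega) hcb hbn
          have b1 : Bal Y (Ico c (c + h)) := by
            unfold Bal
            rw [sum_Ico Y (by omega)]
            omega
          have b2 : Bal Y (Ico a c ∪ Ico (c + h) b) := by
            unfold Bal
            rw [sum_hole Y c1 (by omega) hcb]
            omega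
          have s1 : Splits n Y (2 * r + 1) (Ico c (c + h)) := by
            refine ih _ o1 b1 ?_
            rw [Nat.card_Ico]
            omega
          have s2 : Splits n Y (2 * r + 1) (Ico a c ∪ Ico (c + h) b) := by
            refine ih _ o2 b2 ?_
            rw [card_hole (by omega)]
            omega
          have dd : Disjoint (Ico c (c + h)) (Ico a c ∪ Ico (c + h) b) := by
            rw [Finset.disjoint_left]
            intro x hx hx'
            simp only [mem_union, mem_Ico] at hx hx'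
            omega
          have := Splits.split (2 * r + 1) _ _ ∅ o1 o2 (oneHole_empty n) dd
            (disjoint_empty_right _) (disjoint_empty_right _) s1 s2 (Splits.empty _)
          have e2 : Ico a b = Ico c (c + h) ∪ (Ico a c ∪ Ico (c + h) b) ∪ ∅ := by
            ext x
            simp only [mem_union, mem_Ico, notMem_empty, or_false]
            omega
          rw [e2]
          exact this
      · exact splits_mono oM (by omega) (Splits.pair a b ha hb')
    have := Splits.split (2 * r + 2) I M O oI oM oO d1 d2 d3 (splits_up oI sI) sM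
      (splits_up oO sO)
    rw [e]
    exact this

end Pool.Agent.TH484.J894

namespace Pool.Agent.TH484.J894

theorem splits : Pool.Agent.TH708.Nar.T_Splits := by
  intro n Y r A hA hb hc
  exact main n Y r A hA ((bal_iff Y A).2 hb) hc

end Pool.Agent.TH484.J894
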